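import Pool.Agent.H73.MR.Core
import Pool.Agent.N572.PA.Gap

/-!
Free abelian groups of rank `r` acting faithfully on a lattice of rank `r + 1` and on a convex cone:
all the elements have exponential growth.
-/

set_option autoImplicit false
set_option linter.style.haveILetI false

namespace Pool.Agent.H73.MR

open Filter Topology NormedSpace Polynomial
open Pool.Agent.N110.CC (PC)
open Pool.Agent.N572.PA (eig_le)

/-- an open cone contains an integral vector -/
theorem exists_int {d : ℕ} {C : Set (Fin d → ℝ)} (hC : PC C) (hint : (interior C).Nonempty) :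
    ∃ v ∈ interior C, ∀ i, ∃ m : ℤ, v i = m := by
  obtain ⟨x, hx⟩ := hint
  obtain ⟨ε, hε, hb⟩ := Metric.isOpen_iff.1 isOpen_interior x hx
  obtain ⟨n, hn⟩ := exists_nat_gt (1 / ε)
  have hn0 : (0 : ℝ) < n := lt_trans (by positivity) hn
  have h1 : (n : ℝ)⁻¹ • (fun i => ((⌊(n : ℝ) * x i⌋ : ℤ) : ℝ)) ∈ interior C := by
    apply hb
    rw [Metric.mem_ball, dist_eq_norm]
    have h2 : ∀ i, ‖((n : ℝ)⁻¹ • (fun i => ((⌊(n : ℝ) * x i⌋ : ℤ) : ℝ)) - x) i‖ ≤ (n : ℝ)⁻¹ := by
      intro i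
      rw [Pi.sub_apply, Pi.smul_apply, smul_eq_mul, Real.norm_eq_abs, abs_le]
      have h3 := Int.floor_le ((n : ℝ) * x i)
      have h4 := Int.lt_floor_add_one ((n : ℝ) * x i)
      have h5 : x i = (n : ℝ)⁻¹ * ((n : ℝ) * x i) := by field_simp
      have h6 : 0 < (n : ℝ)⁻¹ := inv_pos.2 hn0
      constructor <;> nlinarith
    have h3 : ‖(n : ℝ)⁻¹ • (fun i => ((⌊(n : ℝ) * x i⌋ : ℤ) : ℝ)) - x‖ ≤ (n : ℝ)⁻¹ :=
      (pi_norm_le_iff_of_nonneg (by positivity)).2 h2
    refine h3.trans_lt ?_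
    rw [div_lt_iff₀ hε] at hn
    rw [inv_lt_iff_one_lt_mul₀ hn0]
    linarith
  refine ⟨fun i => ((⌊(n : ℝ) * x i⌋ : ℤ) : ℝ), ?_, fun i => ⟨_, rfl⟩⟩
  have h2 := Pool.Agent.N165.KM.interior_smul_mem hC.smul hn0 h1
  rwa [smul_smul, mul_inv_cancel₀ hn0.ne', one_smul] at h2

/-- Kronecker: an invertible integral matrix without exponential growth is quasi-unipotent -/
theorem kronecker {d : ℕ} (A : Matrix (Fin d) (Fin d) ℤ) (hA : A.det ≠ 0)
    (h : ∀ δ : ℝ, 0 < δ → ∃ B : ℝ, ∀ (m : ℕ) (i j : Fin d),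
      |((A ^ m) i j : ℝ)| ≤ B * Real.exp (δ * m)) :
    ∃ k : ℕ, 0 < k ∧ (A ^ k - 1) ^ d = 0 := by
  classical
  set AC : Matrix (Fin d) (Fin d) ℂ := A.map (Int.castRingHom ℂ) with hAC
  have hpow : ∀ (m : ℕ) (i j : Fin d), (AC ^ m) i j = (((A ^ m) i j : ℤ) : ℂ) := by
    intro m i j
    have h1 : AC ^ m = (A ^ m).map (Int.castRingHom ℂ) := by
      rw [hAC]
      exact (map_pow (Int.castRingHom ℂ).mapMatrix A m).symm
    rw [h1]
    rfl
  have hroot : ∀ z : ℂ, IsRoot AC.charpoly z → ‖z‖ ≤ 1 := by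
    intro z hz
    have h1 : ∀ δ : ℝ, 0 < δ → ‖z‖ ≤ Real.exp δ := by
      intro δ hδ
      obtain ⟨B, hB⟩ := h δ hδ
      exact eig_le AC B δ (fun m i j => by rw [hpow, Complex.norm_intCast]; exact hB m i j) z hz
    have h2 : Tendsto (fun δ : ℝ => Real.exp δ) (𝓝[>] 0) (𝓝 (Real.exp 0)) :=
      (Real.continuous_exp.tendsto 0).mono_left nhdsWithin_le_nhds
    rw [Real.exp_zero] at h2
    exact ge_of_tendsto h2 (eventually_mem_nhdsWithin.mono fun δ hδ => h1 δ hδ)
  have hchar : AC.charpoly = A.charpoly.map (Int.castRingHom ℂ) := by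
    rw [hAC, Matrix.charpoly_map]
  have hmonic : AC.charpoly.Monic := AC.charpoly_monic
  have hne : AC.charpoly ≠ 0 := hmonic.ne_zero
  have hmahler : (A.charpoly.map (Int.castRingHom ℂ)).mahlerMeasure = 1 := by
    rw [← hchar, mahlerMeasure_eq_leadingCoeff_mul_prod_roots, hmonic.leadingCoeff, norm_one,
      one_mul]
    refine Multiset.prod_eq_one fun a ha => ?_
    obtain ⟨z, hz, rfl⟩ := Multiset.mem_map.1 ha
    exact max_eq_left (hroot z ((mem_roots hne).1 hz))
  have hz0 : ∀ z ∈ AC.charpoly.roots, z ≠ 0 := by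
    rintro z hz rfl
    have h1 : IsRoot AC.charpoly 0 := (mem_roots hne).1 hz
    rw [IsRoot.def, Matrix.eval_charpoly, map_zero, zero_sub, Matrix.det_neg, mul_eq_zero] at h1
    rcases h1 with h1 | h1
    · exact pow_ne_zero _ (by norm_num) h1
    · have h2 := (RingHom.map_det (Int.castRingHom ℂ) A).symm
      have h3 : ((Int.castRingHom ℂ) A.det) = 0 := by
        rw [← h2]
        exact h1
      rw [eq_intCast, Int.cast_eq_zero] at h3
      exact hA h3
  have hunity : ∀ z ∈ AC.charpoly.roots, ∃ n : ℕ, 0 < n ∧ z ^ n = 1 := by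
    intro z hz
    refine pow_eq_one_of_mahlerMeasure_eq_one hmahler (hz0 z hz) ?_
    rw [mem_aroots]
    refine ⟨A.charpoly_monic.ne_zero, ?_⟩
    have h1 := (mem_roots hne).1 hz
    rw [IsRoot.def, hchar, eval_map] at h1
    exact h1
  have hk : ∃ k : ℕ, 0 < k ∧ ∀ z ∈ AC.charpoly.roots, z ^ k = 1 := by
    have key : ∀ S : Finset ℂ, (∀ z ∈ S, ∃ n : ℕ, 0 < n ∧ z ^ n = 1) →
        ∃ k : ℕ, 0 < k ∧ ∀ z ∈ S, z ^ k = 1 := by
      intro S
      induction S using Finset.induction_on with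
      | empty => exact fun _ => ⟨1, one_pos, by simp⟩
      | insert a S ha ih =>
        intro hS
        obtain ⟨k, hk, hk1⟩ := ih fun z hz => hS z (Finset.mem_insert_of_mem hz)
        obtain ⟨n, hn, hn1⟩ := hS a (Finset.mem_insert_self a S)
        refine ⟨n * k, Nat.mul_pos hn hk, fun z hz => ?_⟩
        rcases Finset.mem_insert.1 hz with rfl | hz
        · rw [pow_mul, hn1, one_pow]
        · rw [mul_comm, pow_mul, hk1 z hz, one_pow]
    obtain ⟨k, hk, hk1⟩ := key AC.charpoly.roots.toFinset fun z hz =>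
      hunity z (Multiset.mem_toFinset.1 hz)
    exact ⟨k, hk, fun z hz => hk1 z (Multiset.mem_toFinset.2 hz)⟩
  obtain ⟨k, hk, hk1⟩ := hk
  refine ⟨k, hk, ?_⟩
  have hsplit : AC.charpoly = (AC.charpoly.roots.map fun a => X - C a).prod := by
    have h1 := (IsAlgClosed.splits AC.charpoly).eq_prod_roots
    rwa [hmonic.leadingCoeff, C_1, one_mul] at h1
  have hcard : Multiset.card AC.charpoly.roots = d := by
    have h1 := splits_iff_card_roots.1 (IsAlgClosed.splits AC.charpoly)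
    rw [h1, Matrix.charpoly_natDegree_eq_dim]
    simp
  have hdvd : AC.charpoly ∣ (X ^ k - 1 : ℂ[X]) ^ d := by
    have h1 : (AC.charpoly.roots.map fun _ => (X ^ k - 1 : ℂ[X])).prod = (X ^ k - 1) ^ d := by
      rw [Multiset.map_const', Multiset.prod_replicate, hcard]
    rw [hsplit, ← h1]
    refine Multiset.prod_dvd_prod_of_dvd _ _ fun a ha => ?_
    rw [dvd_iff_isRoot, IsRoot.def, eval_sub, eval_pow, eval_X, eval_one, hk1 a ha, sub_self]
  obtain ⟨Q, hQ⟩ := hdvd
  have h1 : (AC ^ k - 1) ^ d = 0 := by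
    have h2 := congrArg (aeval AC) hQ
    rw [map_mul, Matrix.aeval_self_charpoly, zero_mul, map_pow, map_sub, map_pow, aeval_X,
      map_one] at h2
    exact h2
  have h2 : (AC ^ k - 1) ^ d = ((A ^ k - 1) ^ d).map (Int.castRingHom ℂ) := by
    rw [hAC]
    exact (((Int.castRingHom ℂ).mapMatrix).map_pow (A ^ k - 1) d |>.trans (by
      rw [map_sub, map_pow, map_one]; try rfl)).symm
  rw [h1] at h2
  ext i j
  have h3 := congrFun (congrFun h2 i) j
  rw [Matrix.zero_apply, Matrix.map_apply, eq_intCast] at h3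
  rw [Matrix.zero_apply]
  exact_mod_cast h3.symm

attribute [local instance] Matrix.linftyOpNormedRing Matrix.linftyOpNormedAlgebra

/-- **Exponential growth.** -/
theorem growth {r : ℕ} {A : (Fin r → ℤ) → Matrix (Fin (r + 1)) (Fin (r + 1)) ℤ}
    (h0 : A 0 = 1) (hadd : ∀ u v, A (u + v) = A u * A v) (hf : ∀ v, v ≠ 0 → A v ≠ 1)
    {C : Set (Fin (r + 1) → ℝ)} (hC : PC C) (hint : (interior C).Nonempty)
    (hpres : ∀ v, ∀ x ∈ C, Matrix.toLin' ((A v).map (Int.cast : ℤ → ℝ)) x ∈ C) {v : Fin r → ℤ}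
    (hv : v ≠ 0) :
    ∃ δ : ℝ, 0 < δ ∧ ∀ B : ℝ, ∃ (m : ℕ) (i j : Fin (r + 1)),
      B * Real.exp (δ * m) < |((A v ^ m) i j : ℝ)| := by
  classical
  by_contra hcon
  push Not at hcon
  have hdet : (A v).det ≠ 0 := by
    intro hd
    have h1 : (A v * A (-v)).det = 1 := by
      rw [← hadd, add_neg_cancel, h0, Matrix.det_one]
    rw [Matrix.det_mul, hd, zero_mul] at h1
    exact zero_ne_one h1
  obtain ⟨k, hk, hnil⟩ := kronecker (A v) hdet hcon
  -- the algebra
  let M : (Fin r → ℤ) → Matrix (Fin (r + 1)) (Fin (r + 1)) ℝ := fun v =>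
    (Int.castRingHom ℝ).mapMatrix (A v)
  have hMadd : ∀ u v, M (u + v) = M u * M v := fun u v => by
    show (Int.castRingHom ℝ).mapMatrix _ = _
    rw [hadd, map_mul]
  have hMcomm : ∀ a ∈ Set.range M, ∀ b ∈ Set.range M, a * b = b * a := by
    rintro _ ⟨u, rfl⟩ _ ⟨w, rfl⟩
    rw [← hMadd, ← hMadd, add_comm u w]
  let E : Subalgebra ℝ (Matrix (Fin (r + 1)) (Fin (r + 1)) ℝ) := Algebra.adjoin ℝ (Set.range M)
  haveI : IsMulCommutative E := Algebra.isMulCommutative_adjoin ℝ hMcomm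
  letI : NormedCommRing E :=
    { (inferInstance : NormedRing E) with
      mul_comm := fun a b => mul_comm' a b }
  letI : NormedAlgebra ℝ E := { (inferInstance : Algebra ℝ E) with
    norm_smul_le := fun c x => norm_smul_le c x.1 }
  let L : E →ₐ[ℝ] Module.End ℝ (Fin (r + 1) → ℝ) :=
    (Matrix.toLinAlgEquiv' : Matrix (Fin (r + 1)) (Fin (r + 1)) ℝ ≃ₐ[ℝ] _).toAlgHom.comp E.val
  let T : (Fin r → ℤ) → E := fun v => ⟨M v, Algebra.subset_adjoin ⟨v, rfl⟩⟩
  have hL : ∀ v x, L (T v) x = Matrix.toLin' ((A v).map (Int.cast : ℤ → ℝ)) x := fun v x => rfl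
  obtain ⟨v₀, hv₀, hv₀'⟩ := exists_int hC hint
  have hinj : ∀ X Y : Matrix (Fin (r + 1)) (Fin (r + 1)) ℤ,
      (Int.castRingHom ℝ).mapMatrix X = (Int.castRingHom ℝ).mapMatrix Y → X = Y := by
    intro X Y hXY
    ext i j
    have h1 := congrFun (congrFun hXY i) j
    rw [RingHom.mapMatrix_apply, RingHom.mapMatrix_apply, Matrix.map_apply, Matrix.map_apply,
      eq_intCast, eq_intCast] at h1
    exact_mod_cast h1
  have hsys : Sys C L T v₀ := by
    refine ⟨?_, ?_, ?_, ?_, ?_, hC, ?_, hv₀, hv₀'⟩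
    · intro a b hab
      apply Subtype.ext
      exact (Matrix.toLinAlgEquiv' : Matrix (Fin (r + 1)) (Fin (r + 1)) ℝ ≃ₐ[ℝ] _).injective hab
    · apply Subtype.ext
      show (Int.castRingHom ℝ).mapMatrix (A 0) = 1
      rw [h0, map_one]
    · intro u v
      exact Subtype.ext (hMadd u v)
    · intro u hu h1
      apply hf u hu
      apply hinj
      rw [map_one]
      exact congrArg Subtype.val h1
    · intro u x hx i
      choose m hm using hx
      rw [hL, Matrix.toLin'_apply]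
      refine ⟨∑ j, A u i j * m j, ?_⟩
      rw [Matrix.mulVec, dotProduct]
      push_cast
      exact Finset.sum_congr rfl fun j _ => by rw [Matrix.map_apply, hm j]
    · intro u x hx
      rw [hL]
      exact hpres u x hx
  have h1 : (T (k • v) - 1) ^ (r + 1) = 0 := by
    rw [hsys.pow]
    apply Subtype.ext
    show (M v ^ k - 1) ^ (r + 1) = 0
    have h2 : M v ^ k - 1 = (Int.castRingHom ℝ).mapMatrix (A v ^ k - 1) := by
      rw [map_sub, map_pow, map_one]
    rw [h2, ← map_pow, hnil, map_zero]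
  have h2 := sub_eq_zero.1 (hsys.nilpotent_zero h1)
  refine hsys.faithful (k • v) (fun h3 => hv ?_) h2
  rw [← natCast_zsmul] at h3
  exact Sys.smul_eq_zero' (by exact_mod_cast hk.ne') h3

end Pool.Agent.H73.MR
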