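import Pool.Agent.H73.MR.Main
import Pool.Agent.N110.CC.W4
import Pool.Agent.N110.CC.Res

/-!
The movable cone in an invariant subspace of dimension `r + 1` on which the group contains a free
abelian group of rank `r`.
-/

set_option autoImplicit false
set_option linter.unusedSectionVars false

open FF Pool.Agent.W602.GT Pool.Agent.Y172 Pool.Agent.R887
open Pool.Agent.N110 Pool.Agent.N110.PA Pool.Agent.N110.NV Pool.Agent.N492.PA
open Pool.Agent.N110.CC

namespace Pool.Agent.H73.MR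

section

variable {K : Type} [Field K] [Algebra ℂ K] {N n r ρ : ℕ} {y : Fin (N + 1) → K}
  {c : Place ℂ K → Fin ρ → ℤ} {𝒮 : Subgroup (K ≃ₐ[ℂ] K)}

theorem exists_prime' (hρ : 0 < ρ) (hc : PicardBasis y c) : ∃ P, IsPrimeDivisor y P := by
  by_contra hcon
  push Not at hcon
  have h1 := hc.generate (fun _ => 1)
  have h2 : {z | ∃ P, IsPrimeDivisor y P ∧ z = c P} = (∅ : Set (Fin ρ → ℤ)) := by
    ext z
    constructor
    · rintro ⟨P, hP, -⟩
      exact (hcon P hP).elim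
    · exact fun h => h.elim
  rw [h2, AddSubgroup.closure_empty, AddSubgroup.mem_bot] at h1
  exact one_ne_zero (congrFun h1 ⟨0, hρ⟩)

theorem mov_sub_CE (hy : NormalModel y) (hn : Algebra.trdeg ℂ K = n) (hn0 : 0 < n) (hρ : 0 < ρ)
    (hc : PicardBasis y c) : movCone y c ⊆ CE y c := by
  have hpc := pc_eff hc.numClasses
  have hps := Pool.Agent.N681.CC.leafPSEF K N n ρ y hy hn hn0 c hc.numClasses
    (exists_prime' hρ hc)
  refine closure_minimal ?_ isClosed_closure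
  intro x hx
  refine coneOf_ind (p := fun x => x ∈ CE y c) ?_ (fun x z hx hz => hpc.add x hx z hz)
    (fun t x ht hx => hpc.smul t ht x hx) ?_ hx
  · exact (Pool.Agent.N40.CC.leafEFF K N ρ y hy c hc).1
      ⟨∅, by simp, Pool.Agent.Y167.zero_mem_cone _⟩
  · rintro _ ⟨D', hD', rfl⟩
    exact (hps D').2 hD'

/-- **The movable cone in an invariant subspace.** -/
theorem sub_movF (hy : NormalModel y) (hn : Algebra.trdeg ℂ K = n) (hn0 : 0 < n) (hr : 0 < r)
    (hc : PicardBasis y c) (h𝒮 : ∀ φ ∈ 𝒮, PseudoAut φ y)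
    {G : (Fin r → ℤ) → ((Fin (r + 1) → ℝ) ≃ₗ[ℝ] (Fin (r + 1) → ℝ))}
    (hG : ∀ u v, G (u + v) = G u * G v) (hG1 : ∀ v, v ≠ 0 → G v ≠ 1)
    {s : Fin (r + 1) → Fin ρ → ℤ} (hG𝒮 : ∀ v, ∃ ψ ∈ 𝒮, IsPullBackOn y c s ψ (G v))
    (hli : LinearIndependent ℝ (fun j i => (s j i : ℝ)))
    (hst : ∀ ψ ∈ 𝒮, PreservesSpan y c s ψ) {t₀ : Fin (r + 1) → ℝ}
    (ht₀ : comb s t₀ ∈ interior (effCone y c)) (ht₀' : comb s t₀ ∈ movCone y c) :
    (∀ t, comb s t ∈ effCone y c → comb s t ∈ movCone y c ∧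
      (t ≠ 0 → comb s t ∈ interior (effCone y c))) ∧
    (∃ b : Module.Basis (Fin (r + 1)) ℝ (Fin (r + 1) → ℝ), ∀ t, comb s t ∈ movCone y c ↔
      ∀ i, 0 ≤ b.repr t i) ∧
    HasFundDomain {T | ∃ ψ ∈ 𝒮, IsPullBackOn y c s ψ T}
      {t | comb s t ∈ movCone y c ∩ effCone y c} := by
  have hρ : 0 < ρ := by
    rcases Nat.eq_zero_or_pos ρ with h | h
    · exfalso
      subst h
      have h1 := hli.ne_zero 0
      exact h1 (funext fun i => i.elim0)
    · exact h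
  obtain ⟨hE1, hE2⟩ := Pool.Agent.N40.CC.leafEFF K N ρ y hy c hc
  obtain ⟨h1, h2, ⟨b, hb⟩, h3⟩ := mainF hy hn hn0 hr hc h𝒮 hG hG1 hG𝒮 hli hst
    (interior_mono hE1 ht₀)
  have h4' : ∀ t, comb s t ∈ CE y c → comb s t ∈ movCone y c := fun t ht =>
    h1 (movCone y c) isClosed_closure (fun x hx z hz => closure_coneOf_add hx hz)
      (fun t ht x hx => closure_coneOf_smul hx ht)
      (fun ψ hψ T hT x hx => closure_coneOf_map T.toLinearMap (by
        rintro _ ⟨D', hD', rfl⟩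
        have h4 := Pool.Agent.N608.CC.leafMOV K N ρ y hy c ψ (h𝒮 ψ hψ) T hT D' hD'.1
        exact ⟨_, h4.2 hD', h4.1.symm⟩) hx) ht₀' t ht
  have h4 : ∀ t, comb s t ∈ effCone y c → comb s t ∈ movCone y c := fun t ht => h4' t (hE1 ht)
  refine ⟨fun t ht => ⟨h4 t ht, fun ht0 =>
    interior_maximal hE2 isOpen_interior (h2 t ht ht0)⟩, ⟨b, fun t => ?_⟩, ?_⟩
  · rw [← hb]
    exact ⟨fun h => mov_sub_CE hy hn hn0 hρ hc h, h4' t⟩
  have h5 : {t | comb s t ∈ movCone y c ∩ effCone y c} = {t | comb s t ∈ effCone y c} := by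
    ext t
    exact ⟨fun h => h.2, fun h => ⟨h4 t h, h⟩⟩
  rw [h5]
  exact h3

end

end Pool.Agent.H73.MR
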