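import Pool.Agent.H73.MR.Mat
import Pool.Agent.N572.PA.Dir
import Pool.Agent.N110.CC.K2
import Pool.Agent.N110.CC.R

/-!
Divisors on finite images of varieties with a group of pseudo-automorphisms which acts on the
Néron-Severi space through a group that contains a free abelian group of maximal rank. The proofs
follow `Pool.Agent.N110.CC` (`exists_strG`, `rat_int`, `can_zero`, `quotients`, by helper110 and
others); the hypothesis of positive entropy is removed.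
-/

set_option autoImplicit false
set_option linter.unusedSectionVars false
set_option linter.overlappingInstances false

open FF Module Pool.Agent.W602.GT Pool.Agent.Y172 Pool.Agent.R887 Pool.Agent.W619.PQ
open Pool.Agent.N110 Pool.Agent.N110.PA Pool.Agent.N110.NV Pool.Agent.N492.PA
open Pool.Agent.N110.CC
open Pool.Agent.N165.KM (interior_add_mem interior_smul_mem)
open Filter Topology

namespace Pool.Agent.H73.MR

section

variable {K : Type} [Field K] [Algebra ℂ K] {N n r : ℕ} {y : Fin (N + 1) → K}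
  {c : Place ℂ K → Fin (r + 1) → ℤ}

/-- the structure of the closed effective cone -/
theorem exists_strF (hy : NormalModel y) (hr : 0 < r) (hc : PicardBasis y c)
    {G : (Fin r → ℤ) → ((Fin (r + 1) → ℝ) ≃ₗ[ℝ] (Fin (r + 1) → ℝ))}
    (hG : ∀ u v, G (u + v) = G u * G v) (hG1 : ∀ v, v ≠ 0 → G v ≠ 1)
    (hGP : ∀ v, ∃ ψ, PseudoAut ψ y ∧ IsPullBack y c ψ (G v)) :
    ∃ A : (Fin r → ℤ) → Matrix (Fin (r + 1)) (Fin (r + 1)) ℤ, (∀ v t, TR (A v) t = G v t) ∧
      ∃ W b, Str (CE y c) (fun v => TR (A v)) W b := by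
  classical
  choose φ hφP hφG using hGP
  obtain ⟨i, hi⟩ := hy.ne
  obtain ⟨Hy, hHe, hH⟩ := exists_hyp hy hi
  obtain ⟨M, hM⟩ := exists_rep hy hc (𝒮 := psGroup y) (fun _ h => h)
  obtain ⟨h, hh⟩ : ∃ h, h = toR (cls y (cQ c) Hy) := ⟨_, rfl⟩
  have hpc := pc_eff hc.numClasses
  have hint : h ∈ interior (CE y c) := hh ▸ hyp_int hy hc hi hHe hH
  obtain ⟨hE1, hE2⟩ := Pool.Agent.N40.CC.leafEFF K N (r + 1) y hy c hc
  -- the cones are preserved
  have hpresE : ∀ ψ ∈ psGroup y, ∀ x ∈ effCone y c, TR (M ψ) x ∈ effCone y c := by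
    intro ψ hψ x hx
    refine coneOf_map (TR (M ψ)) ?_ hx
    rintro _ ⟨P, hP, rfl⟩
    exact ⟨comap ψ⁻¹ P, (psaut_iff.1 ((psGroup y).inv_mem hψ) P).2 hP, hM.TR_rcl hψ hP⟩
  have hpres : ∀ ψ ∈ psGroup y, ∀ x ∈ CE y c, TR (M ψ) x ∈ CE y c := by
    intro ψ hψ x hx
    have hlim : Tendsto (fun k : ℕ => TR (M ψ) (x + (1 / ((k : ℝ) + 1)) • h)) atTop
        (𝓝 (TR (M ψ) (x + (0 : ℝ) • h))) := by
      have h1 : Tendsto (fun k : ℕ => x + (1 / ((k : ℝ) + 1)) • h) atTop (𝓝 (x + (0 : ℝ) • h)) :=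
        tendsto_const_nhds.add (tendsto_one_div_add_atTop_nhds_zero_nat.smul_const _)
      exact ((LinearMap.continuous_of_finiteDimensional (TR (M ψ))).tendsto _).comp h1
    rw [zero_smul, add_zero] at hlim
    refine isClosed_closure.mem_of_tendsto hlim (Eventually.of_forall fun k => ?_)
    have h2 : x + (1 / ((k : ℝ) + 1)) • h ∈ interior (CE y c) := by
      rw [add_comm x]
      exact interior_add_mem hpc.add (interior_smul_mem hpc.smul (by positivity) hint) hx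
    exact hE1 (hpresE ψ hψ _ (hE2 h2))
  -- the action
  have hTG : ∀ v t, TR (M (φ v)) t = G v t := by
    intro v t
    have h1 := pull_ext hc (hφG v) (hM.isPull ⟨φ v, hφP v⟩)
    rw [h1, hM.TE_apply]
  have hTRinj : ∀ X Y : Matrix (Fin (r + 1)) (Fin (r + 1)) ℤ, TR X = TR Y → X = Y := by
    intro X Y hXY
    ext i j
    have h1 := congrFun (LinearMap.congr_fun hXY (Pi.single j 1)) i
    have h2 : ∀ Z : Matrix (Fin (r + 1)) (Fin (r + 1)) ℤ, TR Z (Pi.single j 1) i = (Z i j : ℝ) := by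
      intro Z
      rw [TR, Matrix.toLin'_apply, Matrix.mulVec_single_one]
      rfl
    rw [h2, h2] at h1
    exact_mod_cast h1
  have hG0 : G 0 = 1 := by
    have h1 := hG 0 0
    rw [add_zero] at h1
    exact (mul_eq_left.1 h1.symm)
  have hM0 : M (φ 0) = 1 := hTRinj _ _ (LinearMap.ext fun t => by
    rw [hTG, hG0, TR_one]
    rfl)
  have hMadd : ∀ u v, M (φ (u + v)) = M (φ u) * M (φ v) := fun u v =>
    hTRinj _ _ (LinearMap.ext fun t => by
      rw [hTG, hG, TR_mul, Module.End.mul_apply, hTG, hTG]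
      rfl)
  have hMf : ∀ v, v ≠ 0 → M (φ v) ≠ 1 := by
    intro v hv h1
    refine hG1 v hv (LinearEquiv.ext fun t => ?_)
    rw [← hTG, h1, TR_one]
    rfl
  obtain ⟨a, δ, ha, hδ, hg⟩ := Pool.Agent.N572.PA.dir Pool.Agent.N572.PA.gap (r + 1) r hr
    (fun v => M (φ v)) hM0 hMadd (fun v hv => growth (A := fun v => M (φ v)) hM0 hMadd hMf
      hpc ⟨h, hint⟩ (fun v x hx => hpres _ (hφP v) x hx) hv)
  have hact : Act r (CE y c) (fun v => TR (M (φ v))) := by
    refine ⟨hr, hpc, ⟨h, hint⟩, ?_, fun u v => ?_, fun v => hpres _ (hφP v),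
      a / (r + 1), δ, by positivity, hδ, fun v => ?_⟩
    · show TR (M (φ 0)) = 1
      rw [hM0, TR_one]
    · show TR (M (φ (u + v))) = TR (M (φ u)) * TR (M (φ v))
      rw [hMadd, TR_mul]
    · have h1 := hg v
      have h2 : ∑ i, ∑ j, |(M (φ v) i j : ℝ)| ≤
          ((r : ℝ) + 1) * ∑ j, ‖TR (M (φ v)) (Pi.single j 1)‖ := by
        rw [Finset.sum_comm, Finset.mul_sum]
        refine Finset.sum_le_sum fun j _ => ?_
        have h3 : ∀ i, |(M (φ v) i j : ℝ)| ≤ ‖TR (M (φ v)) (Pi.single j 1)‖ := by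
          intro i
          have h4 := norm_le_pi_norm (TR (M (φ v)) (Pi.single j 1)) i
          have h5 : TR (M (φ v)) (Pi.single j 1) i = (M (φ v) i j : ℝ) := by
            rw [TR, Matrix.toLin'_apply, Matrix.mulVec_single_one]
            rfl
          rw [h5, Real.norm_eq_abs] at h4
          exact h4
        refine (Finset.sum_le_sum fun i _ => h3 i).trans (le_of_eq ?_)
        rw [Finset.sum_const, Finset.card_univ, Fintype.card_fin, nsmul_eq_mul]
        push_cast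
        ring
      rw [div_mul_eq_mul_div, div_le_iff₀ (by positivity)]
      linarith
  exact ⟨fun v => M (φ v), hTG, exists_str Pool.Agent.N386.CC.leafPF
    (Pool.Agent.N707.CC.leafCE Pool.Agent.N386.CC.leafPF) Pool.Agent.N769.CC.leafLIN
    (Pool.Agent.N394.CC.leafIND Pool.Agent.N395.CC.leafSEP) hact⟩

/-- rational classes in the closed effective cone are zero or in its interior -/
theorem rat_intF (hy : NormalModel y) (hr : 0 < r) (hc : PicardBasis y c)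
    {G : (Fin r → ℤ) → ((Fin (r + 1) → ℝ) ≃ₗ[ℝ] (Fin (r + 1) → ℝ))}
    (hG : ∀ u v, G (u + v) = G u * G v) (hG1 : ∀ v, v ≠ 0 → G v ≠ 1)
    (hGP : ∀ v, ∃ ψ, PseudoAut ψ y ∧ IsPullBack y c ψ (G v)) {q : Fin (r + 1) → ℚ}
    (hq : toR q ∈ CE y c) (hq0 : q ≠ 0) : toR q ∈ interior (CE y c) := by
  classical
  obtain ⟨A, hA, W, b, st⟩ := exists_strF hy hr hc hG hG1 hGP
  have hpc := pc_eff hc.numClasses
  obtain ⟨d, hd⟩ : ∃ d : ℕ, d = ∏ i, (q i).den := ⟨_, rfl⟩
  have hd0 : 0 < d := by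
    rw [hd]
    exact Finset.prod_pos fun i _ => (q i).den_pos
  have hd0' : (0 : ℝ) < d := by exact_mod_cast hd0
  have hint : ∀ i, ∃ m : ℤ, ((d : ℝ) • toR q) i = m := by
    intro i
    obtain ⟨k, hk⟩ : (q i).den ∣ d := hd ▸ Finset.dvd_prod_of_mem _ (Finset.mem_univ i)
    refine ⟨k * (q i).num, ?_⟩
    have h1 : (d : ℚ) * q i = k * (q i).num := by
      rw [hk]
      push_cast
      have h2 : ((q i).den : ℚ) * q i = (q i).num := Rat.den_mul_eq_num (q i)
      linear_combination (k : ℚ) * h2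
    have h3 : ((d : ℝ) • toR q) i = (((d : ℚ) * q i : ℚ) : ℝ) := by
      rw [Pi.smul_apply, smul_eq_mul]
      push_cast
      rfl
    rw [h3, h1]
    push_cast
    rfl
  have h1 := st.integral (fun v x hx => TR_int _ hx) (hpc.smul d hd0'.le _ hq) hint (by
    intro h0
    apply hq0
    funext i
    have h2 := congrFun h0 i
    rw [Pi.smul_apply, smul_eq_mul, Pi.zero_apply] at h2
    have h3 : toR q i = 0 := (mul_eq_zero.1 h2).resolve_left hd0'.ne'
    have h4 : ((q i : ℚ) : ℝ) = 0 := h3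
    exact_mod_cast h4)
  have h2 := interior_smul_mem hpc.smul (inv_pos.2 hd0') h1
  rwa [smul_smul, inv_mul_cancel₀ hd0'.ne', one_smul] at h2

/-- the canonical class is zero -/
theorem can_zeroF (hy : NormalModel y) (hr : 0 < r) (hc : PicardBasis y c)
    {G : (Fin r → ℤ) → ((Fin (r + 1) → ℝ) ≃ₗ[ℝ] (Fin (r + 1) → ℝ))}
    (hG : ∀ u v, G (u + v) = G u * G v) (hG1 : ∀ v, v ≠ 0 → G v ≠ 1)
    (hGP : ∀ v, ∃ ψ, PseudoAut ψ y ∧ IsPullBack y c ψ (G v)) {x : Fin n → K}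
    {E : Fin n → Derivation ℂ K K} {k : Place ℂ K → ℤ} (h : Can y x E k) :
    cls y (cQ c) (fun P => (k P : ℚ)) = 0 := by
  classical
  obtain ⟨A, hA, W, b, st⟩ := exists_strF hy hr hc hG hG1 hGP
  have h1 : ∀ v, G v (divClass y c k) = divClass y c k := by
    intro v
    obtain ⟨ψ, hψ, hT⟩ := hGP v
    exact can_inv hy hc h hψ hT
  have h2 : divClass y c k = 0 := by
    apply b.repr.injective
    rw [map_zero]
    ext ℓ
    rw [Finsupp.zero_apply]
    obtain ⟨v, hv, -⟩ := st.exists_dir ℓ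
    have h3 := st.repr_G v (divClass y c k) ℓ
    have h4 : TR (A v) (divClass y c k) = divClass y c k := by rw [hA, h1]
    rw [h4] at h3
    have h5 : 1 < Real.exp (ev ℓ.1 v) := Real.one_lt_exp_iff.2 hv
    by_contra h6
    have h7 : Real.exp (ev ℓ.1 v) = 1 := mul_right_cancel₀ h6 (by rw [one_mul]; exact h3.symm)
    linarith
  rw [Pool.Agent.N681.CC.divClass_eq c h.fin] at h2
  exact toR_inj (h2.trans (by funext i; simp [toR]))

end

section

variable {K K' : Type} [Field K] [Algebra ℂ K] [Field K'] [Algebra ℂ K'] {N N' n r : ℕ}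
  {y : Fin (N + 1) → K} {y' : Fin (N' + 1) → K'}

/-- **The canonical divisor of finite images.** -/
theorem quotientsF (hy : NormalModel y) (hy' : NormalModel y') (hn : Algebra.trdeg ℂ K = n)
    (hn' : Algebra.trdeg ℂ K' = n) (hn0 : 0 < n) (hr : 0 < r)
    {c' : Place ℂ K' → Fin (r + 1) → ℤ} (hc' : PicardBasis y' c')
    {G : (Fin r → ℤ) → ((Fin (r + 1) → ℝ) ≃ₗ[ℝ] (Fin (r + 1) → ℝ))}
    (hG : ∀ u v, G (u + v) = G u * G v) (hG1 : ∀ v, v ≠ 0 → G v ≠ 1)
    (hGP : ∀ v, ∃ ψ, PseudoAut ψ y' ∧ IsPullBack y' c' ψ (G v))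
    {π : K →ₐ[ℂ] K'} (hπ : FiniteMap π y y') {Δ : Place ℂ K → ℚ}
    (hΔ : {P | IsPrimeDivisor y P ∧ Δ P ≠ 0}.Finite)
    (hbr : ∀ Q P e, IsPrimeDivisor y' Q → LiesOver π Q P e → 1 ≤ (e : ℚ) * (1 - Δ P)) :
    (LogPsef y n Δ ∧ LogAntiPsef y n Δ ∧ (IrregularityZero y → LogTorsion y n Δ)) ∨
      (LogAntiBig y n Δ ∧ ¬ LogPsef y n Δ) := by
  have hess := hy.ess
  have hess' := hy'.ess
  obtain ⟨x, E, hx, hE⟩ := exists_crd hn (k := ℂ) (K := K)
  have hfr : IsFrame E := fun F => ⟨fun j => F (x j),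
    (Pool.Agent.W73.PG.PULL.expand x hx E hE F).symm⟩
  obtain ⟨k, hkf, hk⟩ := exists_ordc hy hn hx hE
  have h : Can y x E k := ⟨hfr, hE, hkf, hk⟩
  obtain ⟨x', E', k', h'⟩ := exists_can hy' hn'
  obtain ⟨J, hJ0, hJ⟩ := can_pull hy hy' hn hn' hx h h' hπ
  have hk0 := can_zeroF hy' hr hc' hG hG1 hGP h'
  obtain ⟨L', hL', hrel, h1⟩ := Pool.Agent.N340.CC.leafPSUP K K' N N' n y y' hy hy' hn hn' hn0 π hπ
    (fun P => -((k P : ℚ) + Δ P)) (fin_neg (h.finD hΔ))
  obtain ⟨L'', hL'', hrel', h1'⟩ := Pool.Agent.N340.CC.leafPSUP K K' N N' n y y' hy hy' hn hn' hn0 π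
    hπ (fun P => (k P : ℚ) + Δ P) (h.finD hΔ)
  let _ : Algebra K K' := π.toRingHom.toAlgebra
  have hst : IsScalarTower ℂ K K' :=
    IsScalarTower.of_algebraMap_eq fun c => (π.commutes c).symm
  have hfd : FiniteDimensional K K' := finite_map hn hn'
  have hov : ∀ Q : Place ℂ K', LiesOver π Q (bel K Q) (ram K Q) := fun Q => over_bel K Q
  have hJf : Fin0 y' (fun Q => (Q.ord J : ℚ)) := fin_cast (finite_ord hy' hJ0)
  have hk'f : Fin0 y' (fun Q => (k' Q : ℚ)) := fin_cast h'.fin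
  have hR : Effective y' (fun Q => ((k' Q : ℚ) + (Q.ord J : ℚ)) + L' Q) := by
    refine ⟨fun Q hQ => ?_, Fin0.add (Fin0.add hk'f hJf) hL'⟩
    have h2 := hJ Q _ _ hQ (hov Q)
    have h3 := hbr Q _ _ hQ (hov Q)
    have h4 := hrel Q _ _ hQ (hov Q)
    have h5 : (((ram K Q : ℤ) - 1 + ram K Q * k (bel K Q) : ℤ) : ℚ) ≤ ((k' Q + Q.ord J : ℤ) : ℚ) := by
      exact_mod_cast h2
    push_cast at h5
    beta_reduce
    rw [h4]
    linarith
  have hcls : cls y' (cQ c') (fun Q => ((k' Q : ℚ) + (Q.ord J : ℚ)) + L' Q) =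
      cls y' (cQ c') L' := by
    have h2 : cls y' (cQ c') (fun Q => (Q.ord J : ℚ)) = 0 := hc'.numClasses.principal J hJ0
    rw [cls_add (Fin0.add hk'f hJf) hL', cls_add hk'f hJf, hk0, h2, zero_add, zero_add]
  have hce : toR (cls y' (cQ c') L') ∈ CE y' c' := by
    rw [← hcls]
    exact subset_closure (eff_mem hR)
  have hneg : cls y' (cQ c') L'' = -cls y' (cQ c') L' := by
    rw [← cls_neg]
    refine cls_congr fun Q hQ => ?_
    rw [hrel' Q _ _ hQ (hov Q), hrel Q _ _ hQ (hov Q)]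
    ring
  by_cases h0 : cls y' (cQ c') L' = 0
  · left
    have hA : PsefD y (fun P => -((k P : ℚ) + Δ P)) :=
      Pool.Agent.N701.CC.leafPSDN Pool.Agent.N832.CC.leafNORM Pool.Agent.N252.CC.leafPUSH
        K K' N N' n y y' hy hy' hn hn' hn0 π hπ _ L' hrel (psef_of_zero hc'.numClasses hL' h0)
    have hB : PsefD y (fun P => (k P : ℚ) + Δ P) :=
      Pool.Agent.N701.CC.leafPSDN Pool.Agent.N832.CC.leafNORM Pool.Agent.N252.CC.leafPUSH
        K K' N N' n y y' hy hy' hn hn' hn0 π hπ _ L'' hrel'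
        (psef_of_zero hc'.numClasses hL'' (by rw [hneg, h0, neg_zero]))
    exact ⟨h.logPsef hB, h.anti hA, fun hq => h.torsion (torsion hy hq (h.finD hΔ) hB hA)⟩
  · right
    refine ⟨h.antiBig (Pool.Agent.N8.CC.leafBGDN Pool.Agent.N832.CC.leafNORM
      Pool.Agent.N340.CC.leafPSUP K K' N N' n y y' hy hy' hn hn' hn0 π hπ _ L' hrel
      (Pool.Agent.N619.CC.leafBIG K' N' (r + 1) y' hy' c' hc' L' hL'
        (rat_intF hy' hr hc' hG hG1 hGP hce h0))), fun hps' => h0 ?_⟩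
    have h2 := Pool.Agent.N618.CC.leafPSCL K' N' (r + 1) y' hy' (cQ c')
      hc'.numClasses.principal L'' hL'' (h1' (h.psef hps'))
    rw [hneg, toR_neg] at h2
    exact toR_inj (((pc_eff hc'.numClasses).pointed _ hce h2).trans (by funext i; simp [toR]))

/-- **Abundance for finite images.** -/
theorem abundanceF (hy : NormalModel y) (hy' : NormalModel y') (hn : Algebra.trdeg ℂ K = n)
    (hn' : Algebra.trdeg ℂ K' = n) (hn0 : 0 < n) (hr : 0 < r)
    {c' : Place ℂ K' → Fin (r + 1) → ℤ} (hc' : PicardBasis y' c')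
    {G : (Fin r → ℤ) → ((Fin (r + 1) → ℝ) ≃ₗ[ℝ] (Fin (r + 1) → ℝ))}
    (hG : ∀ u v, G (u + v) = G u * G v) (hG1 : ∀ v, v ≠ 0 → G v ≠ 1)
    (hGP : ∀ v, ∃ ψ, PseudoAut ψ y' ∧ IsPullBack y' c' ψ (G v))
    {π : K →ₐ[ℂ] K'} (hπ : FiniteMap π y y') {Δ : Place ℂ K → ℚ}
    (hΔ : {P | IsPrimeDivisor y P ∧ Δ P ≠ 0}.Finite) (hps : LogPsef y n Δ) :
    (LogAntiPsef y n Δ ∧ (IrregularityZero y → LogTorsion y n Δ)) ∨
      (LogBig y n Δ ∧ ∃ Q P e, IsPrimeDivisor y' Q ∧ LiesOver π Q P e ∧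
        (e : ℚ) * (1 - Δ P) < 1) := by
  by_cases hbr : ∀ Q P e, IsPrimeDivisor y' Q → LiesOver π Q P e → 1 ≤ (e : ℚ) * (1 - Δ P)
  · rcases quotientsF hy hy' hn hn' hn0 hr hc' hG hG1 hGP hπ hΔ hbr with ⟨-, h2, h3⟩ | ⟨-, h2⟩
    · exact Or.inl ⟨h2, h3⟩
    · exact (h2 hps).elim
  · push Not at hbr
    obtain ⟨x, E, k, h⟩ := exists_can hy hn
    rcases rigid_img hy hy' hn hn' hn0 hc' (V := Set.univ)
      (fun q _ h1 h2 => rat_intF hy' hr hc' hG hG1 hGP h1 h2) hπ (h.finD hΔ)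
      (fun _ _ _ => Set.mem_univ _) (h.psef hps) with h1 | h1
    · exact Or.inl ⟨h.anti h1, fun hq => h.torsion (torsion hy hq (h.finD hΔ) (h.psef hps) h1)⟩
    · exact Or.inr ⟨h.big h1, hbr⟩

end

end Pool.Agent.H73.MR
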