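import Pool.Agent.N110.CC.Rep
import Pool.Agent.N110.CC.Stm
import Pool.Agent.N165.KM.Basic

/-!
Groups of integral matrices which act cocompactly on the projectivisation of the interior of a
closed convex cone without lines.
-/

set_option autoImplicit false

open Pool.Agent.N110.CC
open Pool.Agent.N165.KM (interior_add_mem interior_smul_mem interior_sub exists_pos_functional)
open Filter Topology

namespace Pool.Agent.H73.MR

section

variable {ρ : ℕ} {C D : Set (Fin ρ → ℝ)}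

/-- closed convex pointed cones are normal -/
theorem normal (hC : PC C) : ∃ M : ℝ, 0 < M ∧ ∀ x y, x ∈ C → y - x ∈ C → ‖x‖ ≤ M * ‖y‖ := by
  obtain ⟨f, c, hc, hf⟩ := exists_pos_functional hC.closed hC.add hC.smul hC.pointed
  refine ⟨(‖f‖ + 1) / c, by positivity, fun x y hx hyx => ?_⟩
  have h1 := hf x hx
  have h2 := hf (y - x) hyx
  have h3 : 0 ≤ c * ‖y - x‖ := by positivity
  rw [map_sub] at h2
  have h4 : f y ≤ ‖f‖ * ‖y‖ := (le_abs_self _).trans (f.le_opNorm y)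
  have h5 : c * ‖x‖ ≤ (‖f‖ + 1) * ‖y‖ := by nlinarith [norm_nonneg y]
  rw [div_mul_eq_mul_div, le_div_iff₀ hc]
  linarith

theorem finite_mat (R : ℝ) : {A : Matrix (Fin ρ) (Fin ρ) ℤ | ∀ i j, |(A i j : ℝ)| ≤ R}.Finite := by
  have h1 : (Set.pi Set.univ fun _ : Fin ρ => (Set.pi Set.univ fun _ : Fin ρ =>
      Set.Icc (-⌈R⌉) ⌈R⌉)).Finite :=
    Set.Finite.pi fun _ => Set.Finite.pi fun _ => Set.finite_Icc _ _
  refine h1.subset ?_
  intro A hA i _ j _
  have h2 := abs_le.1 (hA i j)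
  have h3 := Int.le_ceil R
  constructor
  · have : (-(⌈R⌉ : ℤ) : ℝ) ≤ A i j := by linarith [h2.1]
    exact_mod_cast this
  · have : (A i j : ℝ) ≤ ⌈R⌉ := by linarith [h2.2]
    exact_mod_cast this

theorem TR_single (A : Matrix (Fin ρ) (Fin ρ) ℤ) (i j : Fin ρ) (t : ℝ) :
    TR A (Pi.single j t) i = t * (A i j : ℝ) := by
  have h1 : (Pi.single j t : Fin ρ → ℝ) = t • Pi.single j 1 := by
    rw [← Pi.single_smul, smul_eq_mul, mul_one]
  rw [h1, map_smul, Pi.smul_apply, smul_eq_mul, TR, Matrix.toLin'_apply, Matrix.mulVec_single_one]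
  rfl

/-- a matrix is bounded if it is bounded on a ball -/
theorem entry_bound {A : Matrix (Fin ρ) (Fin ρ) ℤ} {ε R : ℝ} (hε : 0 < ε)
    (h : ∀ w : Fin ρ → ℝ, ‖w‖ < ε → ‖TR A w‖ ≤ R) (i j : Fin ρ) : |(A i j : ℝ)| ≤ R / (ε / 2) := by
  have h1 := h (Pi.single j (ε / 2)) (by
    rw [Pi.norm_single, Real.norm_eq_abs, abs_of_pos (half_pos hε)]
    exact half_lt_self hε)
  have h2 := (norm_le_pi_norm (TR A (Pi.single j (ε / 2))) i).trans h1
  rw [TR_single, Real.norm_eq_abs, abs_mul, abs_of_pos (half_pos hε)] at h2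
  rw [le_div_iff₀ (half_pos hε)]
  linarith

/-- a uniform ball around the points of a compact subset of the interior -/
theorem exists_ball {B : Set (Fin ρ → ℝ)} (hB : IsCompact B) (hBD : B ⊆ interior D) :
    ∃ ε : ℝ, 0 < ε ∧ ∀ c ∈ B, Metric.ball c ε ⊆ D := by
  obtain ⟨ε, hε, h⟩ := hB.exists_thickening_subset_open isOpen_interior hBD
  refine ⟨ε, hε, fun c hc w hw => interior_subset (h ?_)⟩
  exact Metric.mem_thickening_iff.2 ⟨c, hc, hw⟩

/-- The key lemma: close to a boundary point the scaling factor is small. -/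
theorem key (hD : PC D) {B : Set (Fin ρ → ℝ)} (hB : IsCompact B) (hBD : B ⊆ interior D)
    {y : Fin ρ → ℝ} (hy : y ∉ interior D) {δ : ℝ} (hδ : 0 < δ) :
    ∃ η : ℝ, 0 < η ∧ ∀ z, ‖z - y‖ < η → ∀ A A' : Matrix (Fin ρ) (Fin ρ) ℤ, A * A' = 1 →
      (∀ x ∈ D, TR A x ∈ D) → ∀ s : ℝ, δ ≤ s → ∀ c ∈ B, z ≠ s • TR A c := by
  classical
  obtain ⟨M, hM0, hM⟩ := normal hD
  obtain ⟨ε, hε, hball⟩ := exists_ball hB hBD
  obtain ⟨R, hR⟩ : ∃ R, R = (3 * (M + 1) * (‖y‖ + 1) / δ) / (ε / 2) := ⟨_, rfl⟩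
  have hR0 : 0 ≤ 3 * (M + 1) * (‖y‖ + 1) / δ := by positivity
  -- the matrices are bounded
  have hbd : ∀ z, ‖z - y‖ < 1 → ∀ A : Matrix (Fin ρ) (Fin ρ) ℤ,
      (∀ x ∈ D, TR A x ∈ D) → ∀ s : ℝ, δ ≤ s → ∀ c ∈ B, z = s • TR A c →
      ∀ i j, |(A i j : ℝ)| ≤ R := by
    intro z hz A hA s hs c hc hzc
    rw [hR]
    refine entry_bound hε fun w hw => ?_
    have hs0 : 0 < s := lt_of_lt_of_le hδ hs
    have h1 : c + w ∈ D := hball c hc (by simpa [mem_ball_iff_norm] using hw)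
    have h2 : c - w ∈ D := hball c hc (by
      rw [mem_ball_iff_norm]
      have : c - w - c = -w := by abel
      rw [this, norm_neg]
      exact hw)
    have h3 := hA _ h1
    have h4 := hA _ h2
    have h5 : (2 : ℝ) • TR A c - TR A (c + w) = TR A (c - w) := by
      rw [← map_smul, ← map_sub]
      congr 1
      rw [two_smul]
      abel
    have h6 := hM _ _ h3 (h5 ▸ h4)
    have h7 : TR A c = s⁻¹ • z := by rw [hzc, smul_smul, inv_mul_cancel₀ hs0.ne', one_smul]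
    have h8 : ‖TR A c‖ ≤ (‖y‖ + 1) / δ := by
      rw [h7, norm_smul, norm_inv, Real.norm_eq_abs, abs_of_pos hs0, inv_mul_eq_div]
      have h9 : ‖z‖ ≤ ‖y‖ + 1 := by
        have h10 : z = (z - y) + y := by abel
        rw [h10]
        refine (norm_add_le _ _).trans ?_
        linarith
      exact div_le_div₀ (by positivity) h9 hδ hs
    have h9 : TR A w = TR A (c + w) - TR A c := by
      rw [map_add]
      abel
    rw [norm_smul, Real.norm_eq_abs, abs_of_pos (by norm_num : (0 : ℝ) < 2)] at h6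
    rw [h9]
    refine (norm_sub_le _ _).trans ?_
    have h10 : M * (2 * ‖TR A c‖) ≤ M * (2 * ((‖y‖ + 1) / δ)) :=
      mul_le_mul_of_nonneg_left (by linarith) hM0.le
    have h11 : 3 * (M + 1) * (‖y‖ + 1) / δ = 3 * (M + 1) * ((‖y‖ + 1) / δ) := by ring
    have h12 : 0 ≤ (‖y‖ + 1) / δ := by positivity
    rw [h11]
    nlinarith [mul_nonneg hM0.le h12]
  -- a ball for each matrix
  have hrad : ∀ A : Matrix (Fin ρ) (Fin ρ) ℤ, ∃ r : ℝ, 0 < r ∧
      ∀ A' : Matrix (Fin ρ) (Fin ρ) ℤ, A * A' = 1 → ∀ w : Fin ρ → ℝ, ‖w‖ < r →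
      ∃ u : Fin ρ → ℝ, ‖u‖ < δ * ε ∧ TR A u = w := by
    intro A
    by_cases hA : ∃ A' : Matrix (Fin ρ) (Fin ρ) ℤ, A * A' = 1
    · obtain ⟨A', hA'⟩ := hA
      obtain ⟨L, hL⟩ : ∃ L : ℝ, ∀ w, ‖TR A' w‖ ≤ L * ‖w‖ := by
        refine ⟨‖LinearMap.toContinuousLinearMap (TR A')‖, fun w => ?_⟩
        exact (LinearMap.toContinuousLinearMap (TR A')).le_opNorm w
      refine ⟨δ * ε / (|L| + 1), by positivity, fun _ _ w hw => ⟨TR A' w, ?_, ?_⟩⟩
      · rw [lt_div_iff₀ (by positivity)] at hw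
        refine (hL w).trans_lt ?_
        have h1 : L * ‖w‖ ≤ |L| * ‖w‖ := mul_le_mul_of_nonneg_right (le_abs_self L) (norm_nonneg w)
        rcases eq_or_lt_of_le (norm_nonneg w) with h2 | h2
        · rw [← h2, mul_zero]
          positivity
        · nlinarith
      · rw [← Module.End.mul_apply, ← TR_mul, hA', TR_one]
        rfl
    · exact ⟨1, one_pos, fun A' hA' => absurd ⟨A', hA'⟩ hA⟩
  choose rad hrad0 hrad using hrad
  have hfin := finite_mat (ρ := ρ) R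
  obtain ⟨η, hη0, hη⟩ : ∃ η : ℝ, 0 < η ∧ ∀ A ∈ hfin.toFinset, η ≤ rad A := by
    obtain ⟨F, hF⟩ : ∃ F : Finset ℝ, F = insert 1 (hfin.toFinset.image rad) := ⟨_, rfl⟩
    have hne : F.Nonempty := by rw [hF]; exact Finset.insert_nonempty _ _
    refine ⟨F.min' hne, ?_, fun A hA => Finset.min'_le _ _ ?_⟩
    · rw [Finset.lt_min'_iff]
      intro b hb
      rw [hF, Finset.mem_insert, Finset.mem_image] at hb
      rcases hb with rfl | ⟨A, -, rfl⟩
      · exact one_pos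
      · exact hrad0 A
    · rw [hF]
      exact Finset.mem_insert_of_mem (Finset.mem_image_of_mem _ hA)
  refine ⟨min 1 η, lt_min one_pos hη0, fun z hz A A' hAA' hA s hs c hc hzc => hy ?_⟩
  have hs0 : 0 < s := lt_of_lt_of_le hδ hs
  have h1 := hbd z (lt_of_lt_of_le hz (min_le_left _ _)) A hA s hs c hc hzc
  have h2 := hη A (hfin.mem_toFinset.2 h1)
  -- the ball around z
  have h3 : Metric.ball z (rad A) ⊆ D := by
    intro v hv
    rw [mem_ball_iff_norm] at hv
    obtain ⟨u, hu, huv⟩ := hrad A A' hAA' _ hv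
    have h4 : v = s • TR A (c + s⁻¹ • u) := by
      rw [map_add, smul_add, ← hzc, map_smul, smul_smul, mul_inv_cancel₀ hs0.ne', one_smul, huv]
      abel
    rw [h4]
    refine hD.smul s hs0.le _ (hA _ (hball c hc ?_))
    rw [mem_ball_iff_norm, add_sub_cancel_left, norm_smul, norm_inv, Real.norm_eq_abs,
      abs_of_pos hs0, inv_mul_lt_iff₀ hs0]
    calc ‖u‖ < δ * ε := hu
      _ ≤ s * ε := mul_le_mul_of_nonneg_right hs hε.le
  have h4 : y ∈ Metric.ball z (rad A) := by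
    rw [mem_ball_iff_norm, norm_sub_rev]
    exact lt_of_lt_of_le hz ((min_le_right _ _).trans h2)
  exact mem_interior.2 ⟨_, h3, Metric.isOpen_ball, h4⟩

/-- A segment from an interior point leaves the cone at a boundary point. -/
theorem exit (hD : PC D) {b v : Fin ρ → ℝ} (hb : b ∈ interior D) (hv : v ∉ D) :
    ∃ τ : ℝ, 0 < τ ∧ b + τ • v ∉ interior D ∧ b + τ • v ∈ D ∧
      ∀ t : ℝ, 0 ≤ t → t < τ → b + t • v ∈ interior D := by
  classical
  obtain ⟨S, hS⟩ : ∃ S : Set ℝ, S = {t | 0 ≤ t ∧ b + t • v ∈ D} := ⟨_, rfl⟩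
  have hcont : Continuous fun t : ℝ => b + t • v := by fun_prop
  have hScl : IsClosed S := by
    rw [hS]
    exact (isClosed_Ici.inter (hD.closed.preimage hcont))
  have h0 : (0 : ℝ) ∈ S := by
    rw [hS]
    exact ⟨le_rfl, by rw [zero_smul, add_zero]; exact interior_subset hb⟩
  have hbdd : BddAbove S := by
    by_contra hcon
    apply hv
    have h1 : ∀ n : ℕ, ∃ t ∈ S, (n : ℝ) + 1 < t := by
      intro n
      by_contra h2
      push Not at h2
      exact hcon ⟨_, fun t ht => h2 t ht⟩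
    choose t htS htn using h1
    have h2 : Tendsto (fun n => (t n)⁻¹ • b + v) atTop (𝓝 ((0 : ℝ) • b + v)) := by
      refine Tendsto.add_const _ (Tendsto.smul_const ?_ _)
      refine tendsto_inv_atTop_zero.comp (tendsto_atTop_mono (fun n => (htn n).le) ?_)
      exact tendsto_atTop_add_const_right _ _ tendsto_natCast_atTop_atTop
    rw [zero_smul, zero_add] at h2
    refine hD.closed.mem_of_tendsto h2 (Eventually.of_forall fun n => ?_)
    have ht0 : 0 < t n := lt_trans (by positivity) (htn n)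
    have h3 := htS n
    rw [hS] at h3
    have h4 := hD.smul (t n)⁻¹ (inv_nonneg.2 ht0.le) _ h3.2
    rwa [smul_add, smul_smul, inv_mul_cancel₀ ht0.ne', one_smul] at h4
  obtain ⟨τ, hτ⟩ : ∃ τ, τ = sSup S := ⟨_, rfl⟩
  have hτS : τ ∈ S := hτ ▸ hScl.csSup_mem ⟨0, h0⟩ hbdd
  have hτD : b + τ • v ∈ D := by
    rw [hS] at hτS
    exact hτS.2
  have hτ0 : 0 ≤ τ := by
    rw [hS] at hτS
    exact hτS.1
  have hnot : b + τ • v ∉ interior D := by
    intro hin
    obtain ⟨t, ht0, ht⟩ := interior_sub hin (-v)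
    have h1 : τ + t ∈ S := by
      rw [hS]
      refine ⟨by linarith, ?_⟩
      have h2 : b + (τ + t) • v = b + τ • v - t • -v := by
        rw [add_smul, smul_neg]
        abel
      rw [h2]
      exact interior_subset ht
    have h3 := le_csSup hbdd h1
    rw [← hτ] at h3
    linarith
  have hτpos : 0 < τ := by
    rcases eq_or_lt_of_le hτ0 with h1 | h1
    · exfalso
      rw [← h1, zero_smul, add_zero] at hnot
      exact hnot hb
    · exact h1
  refine ⟨τ, hτpos, hnot, hτD, fun t ht0 ht => ?_⟩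
  have h1 : b + t • v = (1 - t / τ) • b + (t / τ) • (b + τ • v) := by
    rw [smul_add, smul_smul, div_mul_cancel₀ _ hτpos.ne', sub_smul, one_smul]
    abel
  rw [h1]
  have h2 : t / τ < 1 := by rwa [div_lt_one hτpos]
  exact interior_add_mem hD.add (interior_smul_mem hD.smul (by linarith) hb)
    (hD.smul _ (div_nonneg ht0 hτ0) _ hτD)

end

/-- A set `Γ` of pairs of inverse integral matrices which preserve the cones `D ⊆ C` and act
cocompactly on the projectivisation of the interior of `D`. -/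
structure Coc {ρ : ℕ} (C D : Set (Fin ρ → ℝ)) (Γ : Set (Matrix (Fin ρ) (Fin ρ) ℤ ×
    Matrix (Fin ρ) (Fin ρ) ℤ)) (B : Set (Fin ρ → ℝ)) : Prop where
  pcC : PC C
  pcD : PC D
  sub : D ⊆ C
  int : (interior D).Nonempty
  inv : ∀ A ∈ Γ, A.1 * A.2 = 1 ∧ A.2 * A.1 = 1
  presC : ∀ A ∈ Γ, ∀ x ∈ C, TR A.1 x ∈ C
  presD : ∀ A ∈ Γ, ∀ x ∈ D, TR A.1 x ∈ D
  presD' : ∀ A ∈ Γ, ∀ x ∈ D, TR A.2 x ∈ D
  comp : IsCompact B
  Bint : B ⊆ interior D
  cov : ∀ x ∈ interior D, ∃ A ∈ Γ, ∃ s : ℝ, 0 < s ∧ ∃ b ∈ B, TR A.1 x = s • b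

namespace Coc

variable {ρ : ℕ} {C D : Set (Fin ρ → ℝ)} {Γ : Set (Matrix (Fin ρ) (Fin ρ) ℤ ×
    Matrix (Fin ρ) (Fin ρ) ℤ)} {B : Set (Fin ρ → ℝ)}

theorem inv_apply (h : Coc C D Γ B) {A : Matrix (Fin ρ) (Fin ρ) ℤ × Matrix (Fin ρ) (Fin ρ) ℤ}
    (hA : A ∈ Γ) (x : Fin ρ → ℝ) : TR A.2 (TR A.1 x) = x := by
  rw [← Module.End.mul_apply, ← TR_mul, (h.inv A hA).2, TR_one]
  rfl

theorem exists_bound (h : Coc C D Γ B) : ∃ R : ℝ, 0 < R ∧ ∀ b ∈ B, ‖b‖ ≤ R := by
  obtain ⟨R, hR⟩ := h.comp.isBounded.exists_norm_le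
  exact ⟨max R 1, lt_max_of_lt_right one_pos, fun b hb => (hR b hb).trans (le_max_left _ _)⟩

/-- Close to a boundary point, the group contains an element which makes the point small. -/
theorem small (h : Coc C D Γ B) {y : Fin ρ → ℝ} (hy : y ∉ interior D) {δ : ℝ} (hδ : 0 < δ) :
    ∃ η : ℝ, 0 < η ∧ ∀ z ∈ interior D, ‖z - y‖ < η → ∃ A ∈ Γ, ∃ s : ℝ, 0 < s ∧ s < δ ∧ ∃ b ∈ B,
      TR A.1 z = s • b := by
  obtain ⟨η, hη, hk⟩ := key h.pcD h.comp h.Bint hy hδ
  refine ⟨η, hη, fun z hz hzy => ?_⟩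
  obtain ⟨A, hA, s, hs, b, hb, he⟩ := h.cov z hz
  refine ⟨A, hA, s, hs, ?_, b, hb, he⟩
  by_contra hcon
  push Not at hcon
  refine hk z hzy A.2 A.1 (h.inv A hA).2 (h.presD' A hA) s hcon b hb ?_
  rw [← map_smul, ← he, h.inv_apply hA]

/-- integral vectors below a sequence which converges to a boundary point -/
theorem eq_zero_of_lim (h : Coc C D Γ B) {y E : Fin ρ → ℝ} (hy : y ∉ interior D) (hE : E ∈ C)
    (hEi : ∀ i, ∃ m : ℤ, E i = m) {t : ℝ} (ht : 0 < t)
    (hlim : ∀ η : ℝ, 0 < η → ∃ z ∈ interior D, ‖z - y‖ < η ∧ z - t • E ∈ C) : E = 0 := by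
  obtain ⟨M, hM0, hM⟩ := normal h.pcC
  obtain ⟨R, hR0, hR⟩ := h.exists_bound
  obtain ⟨η, hη, hs⟩ := h.small hy (δ := t / (2 * M * R)) (by positivity)
  obtain ⟨z, hz, hzy, hzE⟩ := hlim η hη
  obtain ⟨A, hA, s, hs0, hs1, b, hb, he⟩ := hs z hz hzy
  have h1 : TR A.1 (t • E) ∈ C := h.presC A hA _ (h.pcC.smul t ht.le _ hE)
  have h2 : TR A.1 z - TR A.1 (t • E) ∈ C := by
    rw [← map_sub]
    exact h.presC A hA _ hzE
  have h3 := hM _ _ h1 h2
  rw [he, map_smul, norm_smul, norm_smul, Real.norm_eq_abs, Real.norm_eq_abs, abs_of_pos ht,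
    abs_of_pos hs0] at h3
  have h4 : ‖TR A.1 E‖ < 1 := by
    have h5 : M * (s * ‖b‖) ≤ M * (s * R) := mul_le_mul_of_nonneg_left
      (mul_le_mul_of_nonneg_left (hR b hb) hs0.le) hM0.le
    rw [lt_div_iff₀ (by positivity)] at hs1
    have h6 : t * ‖TR A.1 E‖ < t * 1 := by
      have h7 : s * (2 * M * R) = 2 * (M * (s * R)) := by ring
      have h8 : 0 < M * (s * R) := by positivity
      linarith
    exact lt_of_mul_lt_mul_left h6 ht.le
  have h5 : TR A.1 E = 0 := by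
    funext i
    obtain ⟨m, hm⟩ := TR_int A.1 hEi i
    have h6 := (norm_le_pi_norm (TR A.1 E) i).trans_lt h4
    rw [hm, Real.norm_eq_abs] at h6
    have h7 : |m| < 1 := by exact_mod_cast h6
    rw [hm, Int.abs_lt_one_iff.1 h7]
    simp
  have h6 := h.inv_apply hA E
  rw [h5, map_zero] at h6
  exact h6.symm

/-- **integral vectors in the large cone are zero or in the interior of the small cone** -/
theorem integral (h : Coc C D Γ B) {E : Fin ρ → ℝ} (hE : E ∈ C)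
    (hEi : ∀ i, ∃ m : ℤ, E i = m) (hE0 : E ≠ 0) : E ∈ interior D := by
  by_contra hcon
  obtain ⟨b, hb⟩ := h.int
  by_cases hED : E ∈ D
  · refine hE0 (h.eq_zero_of_lim (y := E) hcon hE hEi one_pos fun η hη => ?_)
    obtain ⟨c, hc⟩ : ∃ c : ℝ, c = η / (2 * (‖b‖ + 1)) := ⟨_, rfl⟩
    have hc0 : 0 < c := by rw [hc]; positivity
    have hbi := interior_smul_mem h.pcD.smul hc0 hb
    refine ⟨c • b + E, interior_add_mem h.pcD.add hbi hED, ?_, ?_⟩
    · rw [add_sub_cancel_right, norm_smul, Real.norm_eq_abs, abs_of_pos hc0, hc, div_mul_eq_mul_div,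
        div_lt_iff₀ (by positivity)]
      nlinarith [norm_nonneg b]
    · rw [one_smul, add_sub_cancel_right]
      exact h.sub (interior_subset hbi)
  · obtain ⟨τ, hτ, hn, -, hin⟩ := exit h.pcD hb hED
    refine hE0 (h.eq_zero_of_lim (y := b + τ • E) hn hE hEi (half_pos hτ) fun η hη => ?_)
    obtain ⟨c, hc⟩ : ∃ c : ℝ, c = min (τ / 2) (η / (2 * (‖E‖ + 1))) := ⟨_, rfl⟩
    have hc0 : 0 < c := by rw [hc]; exact lt_min (half_pos hτ) (by positivity)
    have hc1 : c ≤ τ / 2 := hc ▸ min_le_left _ _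
    have hc2 : c ≤ η / (2 * (‖E‖ + 1)) := hc ▸ min_le_right _ _
    refine ⟨b + (τ - c) • E, hin _ (by linarith) (by linarith), ?_, ?_⟩
    · have h1 : b + (τ - c) • E - (b + τ • E) = -(c • E) := by
        rw [sub_smul]
        abel
      rw [h1, norm_neg, norm_smul, Real.norm_eq_abs, abs_of_pos hc0]
      rw [le_div_iff₀ (by positivity)] at hc2
      nlinarith [norm_nonneg E]
    · have h1 : b + (τ - c) • E - (τ / 2) • E = b + (τ - c - τ / 2) • E := by
        rw [sub_smul (τ - c)]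
        abel
      rw [h1]
      exact h.pcC.add _ (h.sub (interior_subset hb)) _ (h.pcC.smul _ (by linarith) _ hE)

/-- a nonzero boundary point -/
theorem exists_bdry (h : Coc C D Γ B) (hρ : 2 ≤ ρ) : ∃ y ∈ D, y ∉ interior D ∧ y ≠ 0 := by
  obtain ⟨b, hb⟩ := h.int
  -- a vector which is independent of `b`
  obtain ⟨v, hv0, hv⟩ : ∃ v : Fin ρ → ℝ, v ≠ 0 ∧ ∀ τ : ℝ, b + τ • v ≠ 0 := by
    by_contra hcon
    push Not at hcon
    have h1 : ∀ v : Fin ρ → ℝ, v ∈ Submodule.span ℝ {b} := by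
      intro v
      by_cases hv : v = 0
      · rw [hv]
        exact Submodule.zero_mem _
      · obtain ⟨τ, hτ⟩ := hcon v hv
        by_cases hτ0 : τ = 0
        · rw [hτ0, zero_smul, add_zero] at hτ
          -- `b = 0`: then the interior contains zero, so `v` and `-v` are in the cone
          exfalso
          apply hv
          rw [hτ] at hb
          obtain ⟨s, hs, h2⟩ := interior_sub hb v
          obtain ⟨s', hs', h3⟩ := interior_sub hb (-v)
          have h4 := h.pcD.smul s⁻¹ (inv_nonneg.2 hs.le) _ (interior_subset h2)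
          have h5 := h.pcD.smul s'⁻¹ (inv_nonneg.2 hs'.le) _ (interior_subset h3)
          rw [zero_sub, smul_neg, smul_smul, inv_mul_cancel₀ hs.ne', one_smul] at h4
          rw [zero_sub, smul_neg, smul_smul, inv_mul_cancel₀ hs'.ne', one_smul, neg_neg] at h5
          exact h.pcD.pointed v h5 h4
        · rw [Submodule.mem_span_singleton]
          refine ⟨-τ⁻¹, ?_⟩
          have h2 : b = -(τ • v) := eq_neg_of_add_eq_zero_left hτ
          rw [h2, neg_smul, smul_neg, neg_neg, smul_smul, inv_mul_cancel₀ hτ0, one_smul]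
    have h2 : Submodule.span ℝ {b} = ⊤ := Submodule.eq_top_iff'.2 h1
    have h3 : Module.finrank ℝ (Submodule.span ℝ {b}) ≤ 1 :=
      (finrank_span_le_card ({b} : Set (Fin ρ → ℝ))).trans (by simp)
    rw [h2, finrank_top, Module.finrank_fintype_fun_eq_card, Fintype.card_fin] at h3
    omega
  have hv' : ∃ v' : Fin ρ → ℝ, v' ∉ D ∧ ∀ τ : ℝ, b + τ • v' ≠ 0 := by
    by_cases h1 : v ∈ D
    · refine ⟨-v, fun h2 => hv0 (h.pcD.pointed v h1 h2), fun τ => ?_⟩
      have := hv (-τ)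
      rwa [neg_smul, ← smul_neg] at this
    · exact ⟨v, h1, hv⟩
  obtain ⟨v', hvD, hv'⟩ := hv'
  obtain ⟨τ, hτ, hn, hd, -⟩ := exit h.pcD hb hvD
  exact ⟨_, hd, hn, hv' τ⟩

/-- **an integral vector which is fixed by the group is zero** -/
theorem fixed (h : Coc C D Γ B) (hρ : 2 ≤ ρ) {k : Fin ρ → ℝ} (hki : ∀ i, ∃ m : ℤ, k i = m)
    (hfix : ∀ A ∈ Γ, TR A.1 k = k) : k = 0 := by
  by_contra hk0
  -- a fixed vector in the interior
  obtain ⟨u, hu, hufix⟩ : ∃ u ∈ interior D, ∀ A ∈ Γ, TR A.1 u = u := by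
    obtain ⟨k', hk'0, hk'i, hk'fix, hk'D⟩ : ∃ k' : Fin ρ → ℝ, k' ≠ 0 ∧ (∀ i, ∃ m : ℤ, k' i = m) ∧
        (∀ A ∈ Γ, TR A.1 k' = k') ∧ k' ∉ D := by
      by_cases h1 : k ∈ D
      · refine ⟨-k, neg_ne_zero.2 hk0, fun i => ?_, fun A hA => by rw [map_neg, hfix A hA],
          fun h2 => hk0 (h.pcD.pointed k h1 h2)⟩
        obtain ⟨m, hm⟩ := hki i
        exact ⟨-m, by rw [Pi.neg_apply, hm]; push_cast; ring⟩
      · exact ⟨k, hk0, hki, hfix, h1⟩
    refine ⟨-k', ?_, fun A hA => by rw [map_neg, hk'fix A hA]⟩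
    refine h.integral (h.sub ?_) (fun i => ?_) (neg_ne_zero.2 hk'0)
    swap
    · obtain ⟨m, hm⟩ := hk'i i
      exact ⟨-m, by rw [Pi.neg_apply, hm]; push_cast; ring⟩
    obtain ⟨b, hb⟩ := h.int
    obtain ⟨τ, hτ, hn, -, hin⟩ := exit h.pcD hb hk'D
    obtain ⟨R, hR0, hR⟩ := h.exists_bound
    -- `-τ k'` is a limit of points of `D`
    have h1 : -(τ • k') ∈ closure D := by
      rw [Metric.mem_closure_iff]
      intro ε hε
      obtain ⟨η, hη, hs⟩ := h.small hn (δ := ε / (4 * R)) (by positivity)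
      obtain ⟨c, hc⟩ : ∃ c : ℝ, c = min τ (min (η / (2 * (‖k'‖ + 1))) (ε / (4 * (‖k'‖ + 1)))) :=
        ⟨_, rfl⟩
      have hc0 : 0 < c := by rw [hc]; exact lt_min hτ (lt_min (by positivity) (by positivity))
      have hc1 : c ≤ τ := hc ▸ min_le_left _ _
      have hc2 : c ≤ η / (2 * (‖k'‖ + 1)) := hc ▸ (min_le_right _ _).trans (min_le_left _ _)
      have hc3 : c ≤ ε / (4 * (‖k'‖ + 1)) := hc ▸ (min_le_right _ _).trans (min_le_right _ _)
      rw [le_div_iff₀ (by positivity)] at hc2 hc3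
      obtain ⟨A, hA, s, hs0, hs1, b', hb', he⟩ := hs (b + (τ - c) • k')
        (hin _ (by linarith) (by linarith)) (by
          have h2 : b + (τ - c) • k' - (b + τ • k') = -(c • k') := by
            rw [sub_smul]
            abel
          rw [h2, norm_neg, norm_smul, Real.norm_eq_abs, abs_of_pos hc0]
          nlinarith [norm_nonneg k'])
      rw [map_add, map_smul, hk'fix A hA] at he
      refine ⟨TR A.1 b, h.presD A hA _ (interior_subset hb), ?_⟩
      have h3 : TR A.1 b = s • b' - (τ - c) • k' := by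
        rw [← he]
        abel
      rw [dist_eq_norm, h3]
      have h4 : -(τ • k') - (s • b' - (τ - c) • k') = -(s • b') - c • k' := by
        rw [sub_smul]
        abel
      rw [h4]
      refine (norm_sub_le _ _).trans_lt ?_
      rw [norm_neg, norm_smul, norm_smul, Real.norm_eq_abs, Real.norm_eq_abs, abs_of_pos hs0,
        abs_of_pos hc0]
      rw [lt_div_iff₀ (by positivity)] at hs1
      have h5 : s * ‖b'‖ ≤ s * R := mul_le_mul_of_nonneg_left (hR b' hb') hs0.le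
      nlinarith [norm_nonneg k']
    rw [h.pcD.closed.closure_eq] at h1
    have h2 := h.pcD.smul τ⁻¹ (inv_nonneg.2 hτ.le) _ h1
    rwa [smul_neg, smul_smul, inv_mul_cancel₀ hτ.ne', one_smul] at h2
  -- the inverse matrices are bounded
  obtain ⟨M, hM0, hM⟩ := normal h.pcD
  have hufix' : ∀ A ∈ Γ, TR A.2 u = u := by
    intro A hA
    have h1 := h.inv_apply hA u
    rwa [hufix A hA] at h1
  obtain ⟨ε, hε, hball⟩ := Metric.isOpen_iff.1 isOpen_interior u hu
  have hbd : ∀ A ∈ Γ, ∀ w : Fin ρ → ℝ, ‖w‖ < ε → ‖TR A.2 w‖ ≤ (2 * M + 1) * ‖u‖ := by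
    intro A hA w hw
    have h1 : u + w ∈ D := interior_subset (hball (by simpa [mem_ball_iff_norm] using hw))
    have h2 : u - w ∈ D := interior_subset (hball (by
      rw [mem_ball_iff_norm]
      have : u - w - u = -w := by abel
      rw [this, norm_neg]
      exact hw))
    have h3 := h.presD' A hA _ h1
    have h4 := h.presD' A hA _ h2
    have h5 : (2 : ℝ) • u - TR A.2 (u + w) = TR A.2 (u - w) := by
      rw [map_add, map_sub, hufix' A hA, two_smul]
      abel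
    have h6 := hM _ _ h3 (h5 ▸ h4)
    rw [norm_smul, Real.norm_eq_abs, abs_of_pos (by norm_num : (0 : ℝ) < 2)] at h6
    have h7 : TR A.2 w = TR A.2 (u + w) - u := by
      rw [map_add, hufix' A hA]
      abel
    rw [h7]
    refine (norm_sub_le _ _).trans ?_
    nlinarith [norm_nonneg u]
  -- the contradiction
  obtain ⟨y, hyD, hyn, hy0⟩ := h.exists_bdry hρ
  obtain ⟨R, hR0, hR⟩ := h.exists_bound
  have hy0' : 0 < ‖y‖ := norm_pos_iff.2 hy0
  have hu0 : 0 < ‖u‖ := by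
    rw [norm_pos_iff]
    rintro rfl
    -- zero is not an interior point
    obtain ⟨s, hs, h2⟩ := interior_sub hu y
    have h4 := h.pcD.smul s⁻¹ (inv_nonneg.2 hs.le) _ (interior_subset h2)
    rw [zero_sub, smul_neg, smul_smul, inv_mul_cancel₀ hs.ne', one_smul] at h4
    exact hy0 (h.pcD.pointed y hyD h4)
  obtain ⟨δ, hδ⟩ : ∃ δ : ℝ, δ = ‖y‖ * ε / (8 * R * ((2 * M + 1) * ‖u‖)) := ⟨_, rfl⟩
  have hδ0 : 0 < δ := by rw [hδ]; positivity
  obtain ⟨η, hη, hs⟩ := h.small hyn hδ0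
  obtain ⟨c, hc⟩ : ∃ c : ℝ, c = min (η / (2 * ‖u‖)) (‖y‖ / (4 * ‖u‖)) := ⟨_, rfl⟩
  have hc0 : 0 < c := by rw [hc]; exact lt_min (by positivity) (by positivity)
  have hc1 : c ≤ η / (2 * ‖u‖) := hc ▸ min_le_left _ _
  have hc2 : c ≤ ‖y‖ / (4 * ‖u‖) := hc ▸ min_le_right _ _
  rw [le_div_iff₀ (by positivity)] at hc1 hc2
  obtain ⟨A, hA, s, hs0, hs1, b, hb, he⟩ := hs (c • u + y)
    (interior_add_mem h.pcD.add (interior_smul_mem h.pcD.smul hc0 hu) hyD) (by
      rw [add_sub_cancel_right, norm_smul, Real.norm_eq_abs, abs_of_pos hc0]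
      linarith)
  have h1 : c • u + y = s • TR A.2 b := by
    rw [← map_smul, ← he, h.inv_apply hA]
  -- the norm of `TR A.2 b`
  have h2 : ‖TR A.2 b‖ ≤ (2 * M + 1) * ‖u‖ * (2 * R / ε) := by
    have h3 := hbd A hA ((ε / (2 * R)) • b) (by
      rw [norm_smul, Real.norm_eq_abs, abs_of_pos (by positivity), div_mul_eq_mul_div,
        div_lt_iff₀ (by positivity)]
      have := hR b hb
      nlinarith)
    rw [map_smul, norm_smul, Real.norm_eq_abs, abs_of_pos (by positivity)] at h3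
    have h4 : (2 * M + 1) * ‖u‖ * (2 * R / ε) = (2 * M + 1) * ‖u‖ / (ε / (2 * R)) := by
      field_simp
    rw [h4, le_div_iff₀ (by positivity)]
    linarith
  have h3 : ‖y‖ ≤ s * ‖TR A.2 b‖ + c * ‖u‖ := by
    have h4 : y = s • TR A.2 b - c • u := by
      rw [← h1]
      abel
    calc ‖y‖ = ‖s • TR A.2 b - c • u‖ := by rw [← h4]
      _ ≤ ‖s • TR A.2 b‖ + ‖c • u‖ := norm_sub_le _ _
      _ = s * ‖TR A.2 b‖ + c * ‖u‖ := by
        rw [norm_smul, norm_smul, Real.norm_eq_abs, Real.norm_eq_abs, abs_of_pos hs0,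
          abs_of_pos hc0]
  have h4 : s * ‖TR A.2 b‖ ≤ ‖y‖ / 4 := by
    have h5 : s * ‖TR A.2 b‖ ≤ δ * ((2 * M + 1) * ‖u‖ * (2 * R / ε)) :=
      mul_le_mul hs1.le h2 (norm_nonneg _) hδ0.le
    have h6 : δ * ((2 * M + 1) * ‖u‖ * (2 * R / ε)) = ‖y‖ / 4 := by
      rw [hδ]
      have : 2 * M + 1 ≠ 0 := by positivity
      field_simp
      norm_num
    linarith
  linarith

end Coc

end Pool.Agent.H73.MR
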