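import Pool.Agent.H73.MR.Abun
import Pool.Agent.H73.MR.Coc
import Pool.Agent.N110.CC.W2

/-!
Divisors on finite images of varieties with a group of pseudo-automorphisms which acts cocompactly on
the projectivisation of the interior of an invariant cone. The proofs of `quotientsH` and
`abundanceH` follow `Pool.Agent.N110.CC` (`quotients`, by helper110 and others).
-/

set_option autoImplicit false
set_option linter.unusedSectionVars false
set_option linter.overlappingInstances false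

open FF Module Pool.Agent.W602.GT Pool.Agent.Y172 Pool.Agent.R887 Pool.Agent.W619.PQ
open Pool.Agent.N110 Pool.Agent.N110.PA Pool.Agent.N110.NV Pool.Agent.N492.PA
open Pool.Agent.N110.CC
open Pool.Agent.N165.KM (interior_add_mem interior_smul_mem)
open Filter Topology

namespace Pool.Agent.H73.MR

section

variable {K K' : Type} [Field K] [Algebra ℂ K] [Field K'] [Algebra ℂ K'] {N N' n ρ : ℕ}
  {y : Fin (N + 1) → K} {y' : Fin (N' + 1) → K'}

/-- **The canonical divisor of finite images.** -/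
theorem quotientsH (hy : NormalModel y) (hy' : NormalModel y') (hn : Algebra.trdeg ℂ K = n)
    (hn' : Algebra.trdeg ℂ K' = n) (hn0 : 0 < n)
    {c' : Place ℂ K' → Fin ρ → ℤ} (hc' : PicardBasis y' c')
    (hrat : ∀ q : Fin ρ → ℚ, toR q ∈ CE y' c' → q ≠ 0 → toR q ∈ interior (CE y' c'))
    (hcan : ∀ (x : Fin n → K') (E : Fin n → Derivation ℂ K' K') (k : Place ℂ K' → ℤ),
      Can y' x E k → cls y' (cQ c') (fun P => (k P : ℚ)) = 0)
    {π : K →ₐ[ℂ] K'} (hπ : FiniteMap π y y') {Δ : Place ℂ K → ℚ}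
    (hΔ : {P | IsPrimeDivisor y P ∧ Δ P ≠ 0}.Finite)
    (hbr : ∀ Q P e, IsPrimeDivisor y' Q → LiesOver π Q P e → 1 ≤ (e : ℚ) * (1 - Δ P)) :
    (LogPsef y n Δ ∧ LogAntiPsef y n Δ ∧ (IrregularityZero y → LogTorsion y n Δ)) ∨
      (LogAntiBig y n Δ ∧ ¬ LogPsef y n Δ) := by
  have hess := hy.ess
  have hess' := hy'.ess
  obtain ⟨x, E, hx, hE⟩ := exists_crd hn (k := ℂ) (K := K)
  have hfr : IsFrame E := fun F => ⟨fun j => F (x j),
    (Pool.Agent.W73.PG.PULL.expand x hx E hE F).symm⟩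
  obtain ⟨k, hkf, hk⟩ := exists_ordc hy hn hx hE
  have h : Can y x E k := ⟨hfr, hE, hkf, hk⟩
  obtain ⟨x', E', k', h'⟩ := exists_can hy' hn'
  obtain ⟨J, hJ0, hJ⟩ := can_pull hy hy' hn hn' hx h h' hπ
  have hk0 := hcan x' E' k' h'
  obtain ⟨L', hL', hrel, h1⟩ := Pool.Agent.N340.CC.leafPSUP K K' N N' n y y' hy hy' hn hn' hn0 π hπ
    (fun P => -((k P : ℚ) + Δ P)) (fin_neg (h.finD hΔ))
  obtain ⟨L'', hL'', hrel', h1'⟩ := Pool.Agent.N340.CC.leafPSUP K K' N N' n y y' hy hy' hn hn' hn0 π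
    hπ (fun P => (k P : ℚ) + Δ P) (h.finD hΔ)
  let _ : Algebra K K' := π.toRingHom.toAlgebra
  have hst : IsScalarTower ℂ K K' :=
    IsScalarTower.of_algebraMap_eq fun c => (π.commutes c).symm
  have hfd : FiniteDimensional K K' := finite_map hn hn'
  have hov : ∀ Q : Place ℂ K', LiesOver π Q (bel K Q) (ram K Q) := fun Q => over_bel K Q
  have hJf : Fin0 y' (fun Q => (Q.ord J : ℚ)) := fin_cast (finite_ord hy' hJ0)
  have hk'f : Fin0 y' (fun Q => (k' Q : ℚ)) := fin_cast h'.fin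
  have hR : Effective y' (fun Q => ((k' Q : ℚ) + (Q.ord J : ℚ)) + L' Q) := by
    refine ⟨fun Q hQ => ?_, Fin0.add (Fin0.add hk'f hJf) hL'⟩
    have h2 := hJ Q _ _ hQ (hov Q)
    have h3 := hbr Q _ _ hQ (hov Q)
    have h4 := hrel Q _ _ hQ (hov Q)
    have h5 : (((ram K Q : ℤ) - 1 + ram K Q * k (bel K Q) : ℤ) : ℚ) ≤ ((k' Q + Q.ord J : ℤ) : ℚ) := by
      exact_mod_cast h2
    push_cast at h5
    beta_reduce
    rw [h4]
    linarith
  have hcls : cls y' (cQ c') (fun Q => ((k' Q : ℚ) + (Q.ord J : ℚ)) + L' Q) =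
      cls y' (cQ c') L' := by
    have h2 : cls y' (cQ c') (fun Q => (Q.ord J : ℚ)) = 0 := hc'.numClasses.principal J hJ0
    rw [cls_add (Fin0.add hk'f hJf) hL', cls_add hk'f hJf, hk0, h2, zero_add, zero_add]
  have hce : toR (cls y' (cQ c') L') ∈ CE y' c' := by
    rw [← hcls]
    exact subset_closure (eff_mem hR)
  have hneg : cls y' (cQ c') L'' = -cls y' (cQ c') L' := by
    rw [← cls_neg]
    refine cls_congr fun Q hQ => ?_
    rw [hrel' Q _ _ hQ (hov Q), hrel Q _ _ hQ (hov Q)]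
    ring
  by_cases h0 : cls y' (cQ c') L' = 0
  · left
    have hA : PsefD y (fun P => -((k P : ℚ) + Δ P)) :=
      Pool.Agent.N701.CC.leafPSDN Pool.Agent.N832.CC.leafNORM Pool.Agent.N252.CC.leafPUSH
        K K' N N' n y y' hy hy' hn hn' hn0 π hπ _ L' hrel (psef_of_zero hc'.numClasses hL' h0)
    have hB : PsefD y (fun P => (k P : ℚ) + Δ P) :=
      Pool.Agent.N701.CC.leafPSDN Pool.Agent.N832.CC.leafNORM Pool.Agent.N252.CC.leafPUSH
        K K' N N' n y y' hy hy' hn hn' hn0 π hπ _ L'' hrel'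
        (psef_of_zero hc'.numClasses hL'' (by rw [hneg, h0, neg_zero]))
    exact ⟨h.logPsef hB, h.anti hA, fun hq => h.torsion (torsion hy hq (h.finD hΔ) hB hA)⟩
  · right
    refine ⟨h.antiBig (Pool.Agent.N8.CC.leafBGDN Pool.Agent.N832.CC.leafNORM
      Pool.Agent.N340.CC.leafPSUP K K' N N' n y y' hy hy' hn hn' hn0 π hπ _ L' hrel
      (Pool.Agent.N619.CC.leafBIG K' N' ρ y' hy' c' hc' L' hL'
        (hrat _ hce h0))), fun hps' => h0 ?_⟩
    have h2 := Pool.Agent.N618.CC.leafPSCL K' N' ρ y' hy' (cQ c')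
      hc'.numClasses.principal L'' hL'' (h1' (h.psef hps'))
    rw [hneg, toR_neg] at h2
    exact toR_inj (((pc_eff hc'.numClasses).pointed _ hce h2).trans (by funext i; simp [toR]))

/-- **Abundance for finite images.** -/
theorem abundanceH (hy : NormalModel y) (hy' : NormalModel y') (hn : Algebra.trdeg ℂ K = n)
    (hn' : Algebra.trdeg ℂ K' = n) (hn0 : 0 < n)
    {c' : Place ℂ K' → Fin ρ → ℤ} (hc' : PicardBasis y' c')
    (hrat : ∀ q : Fin ρ → ℚ, toR q ∈ CE y' c' → q ≠ 0 → toR q ∈ interior (CE y' c'))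
    (hcan : ∀ (x : Fin n → K') (E : Fin n → Derivation ℂ K' K') (k : Place ℂ K' → ℤ),
      Can y' x E k → cls y' (cQ c') (fun P => (k P : ℚ)) = 0)
    {π : K →ₐ[ℂ] K'} (hπ : FiniteMap π y y') {Δ : Place ℂ K → ℚ}
    (hΔ : {P | IsPrimeDivisor y P ∧ Δ P ≠ 0}.Finite) (hps : LogPsef y n Δ) :
    (LogAntiPsef y n Δ ∧ (IrregularityZero y → LogTorsion y n Δ)) ∨
      (LogBig y n Δ ∧ ∃ Q P e, IsPrimeDivisor y' Q ∧ LiesOver π Q P e ∧
        (e : ℚ) * (1 - Δ P) < 1) := by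
  by_cases hbr : ∀ Q P e, IsPrimeDivisor y' Q → LiesOver π Q P e → 1 ≤ (e : ℚ) * (1 - Δ P)
  · rcases quotientsH hy hy' hn hn' hn0 hc' hrat hcan hπ hΔ hbr with ⟨-, h2, h3⟩ | ⟨-, h2⟩
    · exact Or.inl ⟨h2, h3⟩
    · exact (h2 hps).elim
  · push Not at hbr
    obtain ⟨x, E, k, h⟩ := exists_can hy hn
    rcases rigid_img hy hy' hn hn' hn0 hc' (V := Set.univ)
      (fun q _ h1 h2 => hrat q h1 h2) hπ (h.finD hΔ)
      (fun _ _ _ => Set.mem_univ _) (h.psef hps) with h1 | h1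
    · exact Or.inl ⟨h.anti h1, fun hq => h.torsion (torsion hy hq (h.finD hΔ) (h.psef hps) h1)⟩
    · exact Or.inr ⟨h.big h1, hbr⟩

end

section

variable {K : Type} [Field K] [Algebra ℂ K] {N n ρ : ℕ} {y : Fin (N + 1) → K}
  {c : Place ℂ K → Fin ρ → ℤ}

/-- The group `𝒮` of pseudo-automorphisms acts cocompactly on the projectivisation of the interior of
the closed convex cone `D`. -/
structure CocAct (y : Fin (N + 1) → K) (c : Place ℂ K → Fin ρ → ℤ) (𝒮 : Subgroup (K ≃ₐ[ℂ] K))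
    (D B : Set (Fin ρ → ℝ)) : Prop where
  ps : ∀ ψ ∈ 𝒮, PseudoAut ψ y
  closed : IsClosed D
  add : ∀ x ∈ D, ∀ z ∈ D, x + z ∈ D
  smul : ∀ t : ℝ, 0 ≤ t → ∀ x ∈ D, t • x ∈ D
  sub : D ⊆ closure (effCone y c)
  int : (interior D).Nonempty
  inv : ∀ ψ ∈ 𝒮, ∀ T : (Fin ρ → ℝ) ≃ₗ[ℝ] (Fin ρ → ℝ), IsPullBack y c ψ T → ∀ x ∈ D, T x ∈ D
  comp : IsCompact B
  Bint : B ⊆ interior D
  cov : ∀ x ∈ interior D, ∃ ψ ∈ 𝒮, ∃ T : (Fin ρ → ℝ) ≃ₗ[ℝ] (Fin ρ → ℝ), IsPullBack y c ψ T ∧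
    ∃ s : ℝ, 0 < s ∧ s • T x ∈ B

theorem effCone_sub (hy : NormalModel y) (hc : PicardBasis y c) :
    closure (effCone y c) ⊆ CE y c :=
  closure_minimal (Pool.Agent.N40.CC.leafEFF K N ρ y hy c hc).1 isClosed_closure

theorem CocAct.exists_coc {𝒮 : Subgroup (K ≃ₐ[ℂ] K)} {D B : Set (Fin ρ → ℝ)}
    (h : CocAct y c 𝒮 D B) (hy : NormalModel y) (hc : PicardBasis y c) :
    ∃ M, Rep y c 𝒮 M ∧ Coc (CE y c) D
      ((fun ψ => (M ψ, M ψ⁻¹)) '' (𝒮 : Set (K ≃ₐ[ℂ] K))) B := by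
  obtain ⟨M, hM⟩ := exists_rep hy hc h.ps
  have hpc := pc_eff hc.numClasses
  have hsub : D ⊆ CE y c := h.sub.trans (effCone_sub hy hc)
  have hinv : ∀ ψ ∈ 𝒮, ∀ x ∈ D, TR (M ψ) x ∈ D := fun ψ hψ x hx =>
    h.inv ψ hψ _ (hM.isPull ⟨ψ, hψ⟩) x hx
  refine ⟨M, hM, hpc, ⟨h.closed, h.add, h.smul, fun x hx hx' => hpc.pointed x (hsub hx) (hsub hx')⟩,
    hsub, h.int, ?_, ?_, ?_, ?_, h.comp, h.Bint, ?_⟩
  · rintro _ ⟨ψ, hψ, rfl⟩
    exact ⟨by rw [← hM.mul _ hψ _ (𝒮.inv_mem hψ), mul_inv_cancel, hM.one],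
      by rw [← hM.mul _ (𝒮.inv_mem hψ) _ hψ, inv_mul_cancel, hM.one]⟩
  · rintro _ ⟨ψ, hψ, rfl⟩ x hx
    exact pres_S hy hc hM ψ hψ x hx
  · rintro _ ⟨ψ, hψ, rfl⟩ x hx
    exact hinv ψ hψ x hx
  · rintro _ ⟨ψ, hψ, rfl⟩ x hx
    exact hinv _ (𝒮.inv_mem hψ) x hx
  · intro x hx
    obtain ⟨ψ, hψ, T, hT, s, hs, hsT⟩ := h.cov x hx
    refine ⟨_, ⟨ψ, hψ, rfl⟩, s⁻¹, inv_pos.2 hs, _, hsT, ?_⟩
    have h1 := pull_ext hc hT (hM.isPull ⟨ψ, hψ⟩)
    rw [smul_smul, inv_mul_cancel₀ hs.ne', one_smul, h1, hM.TE_apply]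

/-- rational classes in the closed effective cone are zero or in the interior of `D` -/
theorem CocAct.rat {𝒮 : Subgroup (K ≃ₐ[ℂ] K)} {D B : Set (Fin ρ → ℝ)}
    (h : CocAct y c 𝒮 D B) (hy : NormalModel y) (hc : PicardBasis y c) {q : Fin ρ → ℚ}
    (hq : toR q ∈ CE y c) (hq0 : q ≠ 0) : toR q ∈ interior D := by
  obtain ⟨M, -, hcoc⟩ := h.exists_coc hy hc
  have hpc := pc_eff hc.numClasses
  obtain ⟨d, hd⟩ : ∃ d : ℕ, d = ∏ i, (q i).den := ⟨_, rfl⟩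
  have hd0 : 0 < d := by
    rw [hd]
    exact Finset.prod_pos fun i _ => (q i).den_pos
  have hd0' : (0 : ℝ) < d := by exact_mod_cast hd0
  have hint : ∀ i, ∃ m : ℤ, ((d : ℝ) • toR q) i = m := by
    intro i
    obtain ⟨k, hk⟩ : (q i).den ∣ d := hd ▸ Finset.dvd_prod_of_mem _ (Finset.mem_univ i)
    refine ⟨k * (q i).num, ?_⟩
    have h1 : (d : ℚ) * q i = k * (q i).num := by
      rw [hk]
      push_cast
      have h2 : ((q i).den : ℚ) * q i = (q i).num := Rat.den_mul_eq_num (q i)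
      linear_combination (k : ℚ) * h2
    have h3 : ((d : ℝ) • toR q) i = (((d : ℚ) * q i : ℚ) : ℝ) := by
      rw [Pi.smul_apply, smul_eq_mul]
      push_cast
      rfl
    rw [h3, h1]
    push_cast
    rfl
  have h1 := hcoc.integral (hpc.smul d hd0'.le _ hq) hint (by
    intro h0
    apply hq0
    funext i
    have h2 := congrFun h0 i
    rw [Pi.smul_apply, smul_eq_mul, Pi.zero_apply] at h2
    have h3 : toR q i = 0 := (mul_eq_zero.1 h2).resolve_left hd0'.ne'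
    have h4 : ((q i : ℚ) : ℝ) = 0 := h3
    exact_mod_cast h4)
  have h2 := interior_smul_mem h.smul (inv_pos.2 hd0') h1
  rwa [smul_smul, inv_mul_cancel₀ hd0'.ne', one_smul] at h2

/-- the canonical class is zero -/
theorem CocAct.can {𝒮 : Subgroup (K ≃ₐ[ℂ] K)} {D B : Set (Fin ρ → ℝ)}
    (h : CocAct y c 𝒮 D B) (hy : NormalModel y) (hc : PicardBasis y c) (hρ : 2 ≤ ρ)
    {x : Fin n → K} {E : Fin n → Derivation ℂ K K} {k : Place ℂ K → ℤ} (hk : Can y x E k) :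
    cls y (cQ c) (fun P => (k P : ℚ)) = 0 := by
  obtain ⟨M, hM, hcoc⟩ := h.exists_coc hy hc
  have hint : ∀ i, ∃ m : ℤ, divClass y c k i = m := by
    intro i
    refine ⟨∑ᶠ P ∈ {P : Place ℂ K | IsPrimeDivisor y P}, k P * c P i, ?_⟩
    have hfin : ({P : Place ℂ K | IsPrimeDivisor y P} ∩
        Function.support fun P => (k P : ℝ) • rcl c P).Finite := by
      refine hk.fin.subset ?_
      rintro P ⟨h1, h2⟩
      refine ⟨h1, fun h3 => h2 ?_⟩
      show (k P : ℝ) • rcl c P = 0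
      rw [h3]
      simp
    have hfin' : ({P : Place ℂ K | IsPrimeDivisor y P} ∩
        Function.support fun P => k P * c P i).Finite := by
      refine hk.fin.subset ?_
      rintro P ⟨h1, h2⟩
      refine ⟨h1, fun h3 => h2 ?_⟩
      show k P * c P i = 0
      rw [h3, zero_mul]
    have h1 : divClass y c k i = ∑ᶠ P ∈ {P : Place ℂ K | IsPrimeDivisor y P},
        (k P : ℝ) * (c P i : ℝ) := by
      have h2 := (LinearMap.proj (R := ℝ) (φ := fun _ : Fin ρ => ℝ) i).toAddMonoidHom.map_finsum_mem'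
        hfin
      exact h2
    have h2 := (Int.castAddHom ℝ).map_finsum_mem' hfin'
    rw [h1]
    refine Eq.trans ?_ h2.symm
    refine finsum_mem_congr rfl fun P _ => ?_
    show _ = (((k P * c P i : ℤ)) : ℝ)
    push_cast
    rfl
  have h2 := hcoc.fixed hρ hint (by
    rintro _ ⟨ψ, hψ, rfl⟩
    have h3 := can_inv hy hc hk (h.ps ψ hψ) (hM.isPull ⟨ψ, hψ⟩)
    rwa [hM.TE_apply] at h3)
  rw [Pool.Agent.N681.CC.divClass_eq c hk.fin] at h2
  exact toR_inj (h2.trans (by funext i; simp [toR]))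

end

section

variable {K K' : Type} [Field K] [Algebra ℂ K] [Field K'] [Algebra ℂ K'] {N N' n ρ : ℕ}
  {y : Fin (N + 1) → K} {y' : Fin (N' + 1) → K'}

/-- **The main theorem on cocompact actions.** -/
theorem CocAct.main (hy : NormalModel y) (hy' : NormalModel y')
    (hn : Algebra.trdeg ℂ K = n) (hn' : Algebra.trdeg ℂ K' = n) (hn0 : 0 < n) (hρ : 2 ≤ ρ)
    {c' : Place ℂ K' → Fin ρ → ℤ} (hc' : PicardBasis y' c')
    {𝒮 : Subgroup (K' ≃ₐ[ℂ] K')} {D B : Set (Fin ρ → ℝ)} (h : CocAct y' c' 𝒮 D B)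
    {π : K →ₐ[ℂ] K'} (hπ : FiniteMap π y y') :
    (∀ q : Fin ρ → ℚ, (fun i => (q i : ℝ)) ∈ closure (effCone y' c') → q ≠ 0 →
      (fun i => (q i : ℝ)) ∈ interior D) ∧
    ∀ Δ : Place ℂ K → ℚ, {P | IsPrimeDivisor y P ∧ Δ P ≠ 0}.Finite →
      ((∀ Q P e, IsPrimeDivisor y' Q → LiesOver π Q P e → 1 ≤ (e : ℚ) * (1 - Δ P)) →
        (LogPsef y n Δ ∧ LogAntiPsef y n Δ ∧ (IrregularityZero y → LogTorsion y n Δ)) ∨
          (LogAntiBig y n Δ ∧ ¬ LogPsef y n Δ)) ∧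
      (LogPsef y n Δ →
        (LogAntiPsef y n Δ ∧ (IrregularityZero y → LogTorsion y n Δ)) ∨
          (LogBig y n Δ ∧ ∃ Q P e, IsPrimeDivisor y' Q ∧ LiesOver π Q P e ∧
            (e : ℚ) * (1 - Δ P) < 1)) := by
  have hsub := effCone_sub hy' hc'
  have hrat : ∀ q : Fin ρ → ℚ, toR q ∈ CE y' c' → q ≠ 0 → toR q ∈ interior (CE y' c') :=
    fun q hq hq0 => interior_mono (h.sub.trans hsub) (h.rat hy' hc' hq hq0)
  have hcan : ∀ (x : Fin n → K') (E : Fin n → Derivation ℂ K' K') (k : Place ℂ K' → ℤ),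
      Can y' x E k → cls y' (cQ c') (fun P => (k P : ℚ)) = 0 := fun _ _ _ hk =>
    h.can hy' hc' hρ hk
  exact ⟨fun q hq hq0 => h.rat hy' hc' (hsub hq) hq0, fun Δ hΔ =>
    ⟨quotientsH hy hy' hn hn' hn0 hc' hrat hcan hπ hΔ,
      abundanceH hy hy' hn hn' hn0 hc' hrat hcan hπ hΔ⟩⟩

end

end Pool.Agent.H73.MR
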