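import Pool.Agent.H73.MR.Log
import Pool.Agent.N110.CC.Stm
import Pool.Agent.N165.KM.Basic

/-!
Free abelian groups of rank `r` acting on a lattice of rank `r + 1` and on a convex cone: the algebra
generated by the group is reduced.
-/

set_option autoImplicit false
set_option linter.style.haveILetI false

namespace Pool.Agent.H73.MR

open Filter Topology NormedSpace
open Pool.Agent.N110.CC (PC)
open Pool.Agent.N165.KM (interior_sub exists_pos_functional)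

/-- a free abelian group of rank `r` in a commutative algebra which acts on `ℝ ^ (r + 1)` -/
structure Sys {r : ℕ} {𝔸 : Type*} [NormedCommRing 𝔸] [NormedAlgebra ℝ 𝔸]
    (C : Set (Fin (r + 1) → ℝ)) (L : 𝔸 →ₐ[ℝ] Module.End ℝ (Fin (r + 1) → ℝ))
    (T : (Fin r → ℤ) → 𝔸) (v₀ : Fin (r + 1) → ℝ) : Prop where
  inj : Function.Injective L
  zero : T 0 = 1
  add : ∀ u v, T (u + v) = T u * T v
  faithful : ∀ v, v ≠ 0 → T v ≠ 1
  int : ∀ (v : Fin r → ℤ) (x : Fin (r + 1) → ℝ), (∀ i, ∃ m : ℤ, x i = m) →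
    ∀ i, ∃ m : ℤ, L (T v) x i = m
  pc : PC C
  pres : ∀ v, ∀ x ∈ C, L (T v) x ∈ C
  v0 : v₀ ∈ interior C
  v0int : ∀ i, ∃ m : ℤ, v₀ i = m

/-- simultaneous approximation -/
theorem approx {r : ℕ} (t : Fin r → ℝ) {δ : ℝ} (hδ : 0 < δ) (M : ℕ) :
    ∃ q : ℕ, M ≤ q ∧ 1 ≤ q ∧ ∃ k : Fin r → ℤ, ∀ i, |(q : ℝ) * t i - k i| < δ := by
  set f : ℕ → (Fin r → ℝ) := fun n i => Int.fract (((n * (M + 1) : ℕ) : ℝ) * t i) with hf
  have hmem : ∀ n, f n ∈ Set.Icc (0 : Fin r → ℝ) 1 := fun n =>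
    ⟨fun i => Int.fract_nonneg _, fun i => (Int.fract_lt_one _).le⟩
  obtain ⟨a, -, φ, hφ, ha⟩ := isCompact_Icc.tendsto_subseq hmem
  have hc := ha.cauchySeq
  obtain ⟨N, hN⟩ := Metric.cauchySeq_iff'.1 hc δ hδ
  have h1 := hN (N + 1) (Nat.le_succ N)
  have h2 : φ N < φ (N + 1) := hφ (Nat.lt_succ_self N)
  refine ⟨(φ (N + 1) - φ N) * (M + 1), ?_, ?_, fun i =>
    ⌊((φ (N + 1) * (M + 1) : ℕ) : ℝ) * t i⌋ - ⌊((φ N * (M + 1) : ℕ) : ℝ) * t i⌋, fun i => ?_⟩
  · have : 1 ≤ φ (N + 1) - φ N := by omega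
    nlinarith
  · have : 1 ≤ φ (N + 1) - φ N := by omega
    nlinarith
  · have h3 : |f (φ (N + 1)) i - f (φ N) i| < δ := by
      have h4 := (dist_pi_lt_iff hδ).1 h1 i
      rwa [Real.dist_eq] at h4
    have h5 : (((φ (N + 1) - φ N) * (M + 1) : ℕ) : ℝ) * t i -
        ((⌊((φ (N + 1) * (M + 1) : ℕ) : ℝ) * t i⌋ - ⌊((φ N * (M + 1) : ℕ) : ℝ) * t i⌋ : ℤ) : ℝ) =
        f (φ (N + 1)) i - f (φ N) i := by
      rw [hf]
      simp only [Int.fract]
      push_cast [Nat.cast_sub h2.le]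
      ring
    rw [h5]
    exact h3

theorem one_le_norm_of_int {d : ℕ} {w : Fin d → ℝ} (hw : ∀ i, ∃ m : ℤ, w i = m) (h0 : w ≠ 0) :
    1 ≤ ‖w‖ := by
  obtain ⟨i, hi⟩ : ∃ i, w i ≠ 0 := by
    by_contra hc
    push Not at hc
    exact h0 (funext hc)
  obtain ⟨m, hm⟩ := hw i
  refine le_trans ?_ (norm_le_pi_norm w i)
  rw [hm, Real.norm_eq_abs]
  have h1 : m ≠ 0 := by
    rintro rfl
    exact hi (by rw [hm]; simp)
  have h2 : 1 ≤ |m| := Int.one_le_abs h1
  exact_mod_cast h2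

namespace Sys

variable {r : ℕ} {𝔸 : Type*} [NormedCommRing 𝔸] [NormedAlgebra ℝ 𝔸]
  {C : Set (Fin (r + 1) → ℝ)} {L : 𝔸 →ₐ[ℝ] Module.End ℝ (Fin (r + 1) → ℝ)}
  {T : (Fin r → ℤ) → 𝔸} {v₀ : Fin (r + 1) → ℝ}

theorem v0_ne (h : Sys C L T v₀) : v₀ ≠ 0 := by
  rintro rfl
  obtain ⟨τ, hτ, h1⟩ := interior_sub h.v0 (fun _ => 1)
  obtain ⟨τ', hτ', h2⟩ := interior_sub h.v0 (-(fun _ => 1))
  have h3 := h.pc.smul τ⁻¹ (inv_pos.2 hτ).le _ (interior_subset h1)
  have h4 := h.pc.smul τ'⁻¹ (inv_pos.2 hτ').le _ (interior_subset h2)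
  rw [zero_sub, smul_neg, smul_smul, inv_mul_cancel₀ hτ.ne', one_smul] at h3
  rw [zero_sub, smul_neg, smul_smul, inv_mul_cancel₀ hτ'.ne', one_smul] at h4
  have h5 := h.pc.pointed _ h3 h4
  have h6 := congrFun h5 0
  simp at h6

theorem mul_neg (h : Sys C L T v₀) (v : Fin r → ℤ) : T v * T (-v) = 1 := by
  rw [← h.add, add_neg_cancel, h.zero]

theorem pow (h : Sys C L T v₀) (v : Fin r → ℤ) (n : ℕ) : T (n • v) = T v ^ n := by
  induction n with
  | zero => rw [zero_smul, pow_zero, h.zero]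
  | succ n ih => rw [succ_nsmul, h.add, ih, pow_succ]

theorem smul_eq_zero' {v : Fin r → ℤ} {n : ℤ} (hn : n ≠ 0) (h : n • v = 0) : v = 0 := by
  funext i
  have h1 := congrFun h i
  rw [Pi.smul_apply, smul_eq_mul, Pi.zero_apply, mul_eq_zero] at h1
  exact h1.resolve_left hn

/-- **Stabilizers are trivial.** -/
theorem stab (h : Sys C L T v₀) {v : Fin r → ℤ} (hv : L (T v) v₀ = v₀) : v = 0 := by
  classical
  have hn : ∀ n : ℕ, L (T (n • v)) v₀ = v₀ := by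
    intro n
    induction n with
    | zero => rw [zero_smul, h.zero, map_one]; rfl
    | succ n ih =>
      rw [succ_nsmul, h.add, map_mul, Module.End.mul_apply, hv, ih]
  obtain ⟨f, κ, hκ, hf⟩ := exists_pos_functional h.pc.closed h.pc.add h.pc.smul h.pc.pointed
  have hB : ∀ j : Fin (r + 1), ∃ B : ℝ, ∀ n : ℕ, ‖L (T (n • v)) (Pi.single j 1)‖ ≤ B := by
    intro j
    obtain ⟨τ, hτ, h1⟩ := interior_sub h.v0 (Pi.single j 1)
    obtain ⟨τ', hτ', h2⟩ := interior_sub h.v0 (-(Pi.single j 1))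
    refine ⟨((1 + τ / τ') * f v₀ / κ + ‖v₀‖) / τ, fun n => ?_⟩
    obtain ⟨z, hz⟩ : ∃ z, z = L (T (n • v)) (Pi.single j 1) := ⟨_, rfl⟩
    have h3 : v₀ - τ • z ∈ C := by
      have h5 := h.pres (n • v) _ (interior_subset h1)
      rwa [map_sub, map_smul, hn, ← hz] at h5
    have h4 : v₀ + τ' • z ∈ C := by
      have h5 := h.pres (n • v) _ (interior_subset h2)
      rwa [map_sub, map_smul, hn, map_neg, ← hz, smul_neg, sub_neg_eq_add] at h5
    rw [← hz]
    have h5 := hf _ h3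
    have h6 : 0 ≤ f (v₀ + τ' • z) := le_trans (by positivity) (hf _ h4)
    rw [map_add, map_smul, smul_eq_mul] at h6
    have h7 : f (v₀ - τ • z) ≤ (1 + τ / τ') * f v₀ := by
      rw [map_sub, map_smul, smul_eq_mul]
      have h8 : -(τ * f z) ≤ τ / τ' * f v₀ := by
        have h9 : -(f z) ≤ f v₀ / τ' := by
          rw [le_div_iff₀ hτ']
          linarith
        have h10 := mul_le_mul_of_nonneg_left h9 hτ.le
        calc -(τ * f z) = τ * -(f z) := by ring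
          _ ≤ τ * (f v₀ / τ') := h10
          _ = τ / τ' * f v₀ := by ring
      linarith
    rw [le_div_iff₀ hτ]
    have h8 : ‖v₀ - τ • z‖ ≤ (1 + τ / τ') * f v₀ / κ := by
      rw [le_div_iff₀ hκ, mul_comm]
      exact h5.trans h7
    have h9 : ‖τ • z‖ ≤ ‖v₀ - τ • z‖ + ‖v₀‖ := by
      have e1 : τ • z = v₀ - (v₀ - τ • z) := by abel
      have e2 := norm_sub_le v₀ (v₀ - τ • z)
      rw [← e1] at e2
      linarith
    rw [norm_smul, Real.norm_eq_abs, abs_of_pos hτ] at h9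
    linarith
  choose B hB using hB
  have hex : ∀ (n : ℕ) (j : Fin (r + 1)), ∃ w : Fin (r + 1) → ℤ,
      (∀ i, L (T (n • v)) (Pi.single j 1) i = w i) ∧ ∀ i, |w i| ≤ ⌈B j⌉ := by
    intro n j
    have h1 := h.int (n • v) (Pi.single j 1) (fun i => by
      by_cases hij : i = j
      · subst hij
        exact ⟨1, by simp⟩
      · exact ⟨0, by simp [Pi.single_eq_of_ne hij]⟩)
    choose w hw using h1
    refine ⟨w, hw, fun i => ?_⟩
    have h2 := (norm_le_pi_norm (L (T (n • v)) (Pi.single j 1)) i).trans (hB j n)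
    rw [hw, Real.norm_eq_abs] at h2
    have h3 : ((|w i| : ℤ) : ℝ) ≤ B j := by push_cast; exact h2
    exact_mod_cast h3.trans (Int.le_ceil _)
  choose W hW1 hW2 using hex
  have hfin : (Set.Icc (fun j _ => -⌈B j⌉ : Fin (r + 1) → Fin (r + 1) → ℤ)
      (fun j _ => ⌈B j⌉)).Finite := Set.finite_Icc _ _
  have hWm : ∀ n, W n ∈ Set.Icc (fun j _ => -⌈B j⌉ : Fin (r + 1) → Fin (r + 1) → ℤ)
      (fun j _ => ⌈B j⌉) := fun n => ⟨fun j i => (abs_le.1 (hW2 n j i)).1,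
        fun j i => (abs_le.1 (hW2 n j i)).2⟩
  obtain ⟨n, -, m, -, hnm, heq⟩ := Set.infinite_univ.exists_ne_map_eq_of_mapsTo
    (fun (n : ℕ) _ => hWm n) hfin
  have h1 : L (T (n • v)) = L (T (m • v)) := by
    refine (Pi.basisFun ℝ (Fin (r + 1))).ext fun j => ?_
    rw [Pi.basisFun_apply]
    funext i
    rw [hW1, hW1, heq]
  have h2 := h.inj h1
  have h3 : T (((n : ℤ) - m) • v) = 1 := by
    rw [sub_smul, sub_eq_add_neg, h.add, natCast_zsmul, natCast_zsmul, h2, h.mul_neg]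
  by_contra hv0
  refine h.faithful (((n : ℤ) - m) • v) (fun h4 => hv0 (smul_eq_zero' ?_ h4)) h3
  intro h4
  apply hnm
  omega

variable [FiniteDimensional ℝ 𝔸]

/-- the action is bounded -/
theorem bound (L : 𝔸 →ₐ[ℝ] Module.End ℝ (Fin (r + 1) → ℝ)) :
    ∃ K : ℝ, 0 < K ∧ ∀ a w, ‖L a w‖ ≤ K * ‖a‖ * ‖w‖ := by
  let Φ : 𝔸 →ₗ[ℝ] ((Fin (r + 1) → ℝ) →L[ℝ] (Fin (r + 1) → ℝ)) :=
    (LinearMap.toContinuousLinearMap : Module.End ℝ (Fin (r + 1) → ℝ) ≃ₗ[ℝ] _).toLinearMap ∘ₗ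
      L.toLinearMap
  refine ⟨‖LinearMap.toContinuousLinearMap Φ‖ + 1, by positivity, fun a w => ?_⟩
  have h1 : ‖Φ a‖ ≤ ‖LinearMap.toContinuousLinearMap Φ‖ * ‖a‖ :=
    (LinearMap.toContinuousLinearMap Φ).le_opNorm a
  have h2 : ‖L a w‖ ≤ ‖Φ a‖ * ‖w‖ := (Φ a).le_opNorm w
  refine h2.trans (mul_le_mul_of_nonneg_right (h1.trans ?_) (norm_nonneg _))
  have := norm_nonneg a
  nlinarith

theorem eigen (L : 𝔸 →ₐ[ℝ] Module.End ℝ (Fin (r + 1) → ℝ)) {y : 𝔸} {c : ℝ}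
    {w : Fin (r + 1) → ℝ} (h : L y w = c • w) : L (exp y) w = Real.exp c • w := by
  haveI : CompleteSpace 𝔸 := FiniteDimensional.complete ℝ 𝔸
  have h1 := exp_series_hasSum_exp' (𝕂 := ℝ) y
  let ev : 𝔸 →ₗ[ℝ] (Fin (r + 1) → ℝ) := (LinearMap.applyₗ w) ∘ₗ L.toLinearMap
  have hev : ∀ a, (LinearMap.toContinuousLinearMap ev) a = L a w := fun a => rfl
  have h2 := h1.mapL (LinearMap.toContinuousLinearMap ev)
  have hpow : ∀ n : ℕ, L (y ^ n) w = c ^ n • w := by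
    intro n
    induction n with
    | zero => rw [pow_zero, map_one, pow_zero, one_smul]; rfl
    | succ n ih =>
      rw [pow_succ, map_mul, Module.End.mul_apply, h, map_smul, ih, smul_smul, pow_succ, mul_comm]
  have h3 := exp_series_hasSum_exp' (𝕂 := ℝ) c
  rw [← Real.exp_eq_exp_ℝ] at h3
  have h4 := h3.smul_const w
  rw [hev] at h2
  have h5 : (fun b : ℕ => (LinearMap.toContinuousLinearMap ev) ((b.factorial : ℝ)⁻¹ • y ^ b)) =
      fun z : ℕ => (((z.factorial : ℝ)⁻¹) • c ^ z) • w := by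
    funext n
    rw [hev, map_smul, LinearMap.smul_apply, hpow, smul_smul, smul_eq_mul]
  rw [h5] at h2
  exact h2.unique h4

theorem exp_sq_zero {s : 𝔸} (hs : s * s = 0) : exp s = 1 + s := by
  haveI : CompleteSpace 𝔸 := FiniteDimensional.complete ℝ 𝔸
  have h1 := exp_series_hasSum_exp' (𝕂 := ℝ) s
  refine h1.unique ?_
  have h2 : HasSum (fun n : ℕ => ((n.factorial : ℝ)⁻¹) • s ^ n)
      (∑ n ∈ Finset.range 2, ((n.factorial : ℝ)⁻¹) • s ^ n) := by
    refine hasSum_sum_of_ne_finset_zero fun n hn => ?_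
    rw [Finset.mem_range, not_lt] at hn
    obtain ⟨m, rfl⟩ := Nat.exists_eq_add_of_le hn
    rw [pow_add, pow_two, hs, zero_mul, smul_zero]
  simpa [Finset.sum_range_succ] using h2

/-- the logarithms -/
theorem exists_logs (h : Sys C L T v₀) : ∃ X : (Fin r → ℝ) →ₗ[ℝ] 𝔸, ∀ k : Fin r → ℤ,
    exp (X fun i => (k i : ℝ)) = T (k + k) := by
  classical
  haveI : CompleteSpace 𝔸 := FiniteDimensional.complete ℝ 𝔸
  have h1 : ∀ i : Fin r, ∃ x : 𝔸, exp x = T (Pi.single i 1) * T (Pi.single i 1) := fun i =>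
    exists_log (IsUnit.of_mul_eq_one _ (h.mul_neg _))
  choose x hx using h1
  refine ⟨Fintype.linearCombination ℝ x, ?_⟩
  set X := Fintype.linearCombination ℝ x with hX
  have hXs : ∀ i, X (Pi.single i 1) = x i := fun i => by
    rw [hX, Fintype.linearCombination_apply_single, one_smul]
  let S : AddSubgroup (Fin r → ℤ) :=
    { carrier := {k | exp (X fun i => (k i : ℝ)) = T (k + k)}
      zero_mem' := by
        show exp (X fun i => (((0 : Fin r → ℤ) i : ℤ) : ℝ)) = T (0 + 0)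
        have e1 : (fun i => (((0 : Fin r → ℤ) i : ℤ) : ℝ)) = 0 := by
          funext i
          simp
        rw [e1, map_zero, exp_zero, add_zero, h.zero]
      add_mem' := by
        intro k l hk hl
        show exp (X fun i => (((k + l) i : ℤ) : ℝ)) = T (k + l + (k + l))
        have e1 : (fun i => (((k + l) i : ℤ) : ℝ)) = (fun i => (k i : ℝ)) + fun i => (l i : ℝ) := by
          funext i
          simp
        rw [e1, map_add, exp_add', hk, hl, ← h.add]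
        congr 1
        abel
      neg_mem' := by
        intro k hk
        show exp (X fun i => (((-k) i : ℤ) : ℝ)) = T (-k + -k)
        have e1 : (fun i => (((-k) i : ℤ) : ℝ)) = -(fun i => (k i : ℝ)) := by
          funext i
          simp
        have e2 : -k + -k = -(k + k) := by abel
        have e3 : exp (X fun i => (k i : ℝ)) = T (k + k) := hk
        have e4 := exp_mul_neg (X fun i => (k i : ℝ))
        have e5 := h.mul_neg (k + k)
        rw [e1, map_neg, e2]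
        rw [e3] at e4
        calc exp (-(X fun i => (k i : ℝ))) = (T (k + k) * T (-(k + k))) *
              exp (-(X fun i => (k i : ℝ))) := by rw [e5, one_mul]
          _ = T (-(k + k)) * (T (k + k) * exp (-(X fun i => (k i : ℝ)))) := by ring
          _ = T (-(k + k)) := by rw [e4, mul_one] }
  intro k
  have hk : k ∈ S := by
    have e1 : k = ∑ i, k i • (Pi.single i 1 : Fin r → ℤ) := by
      funext j
      rw [Finset.sum_apply]
      simp [Pi.single_apply]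
    rw [e1]
    refine S.sum_mem fun i _ => S.zsmul_mem ?_ _
    show exp (X fun j => (((Pi.single i 1 : Fin r → ℤ) j : ℤ) : ℝ)) =
      T (Pi.single i 1 + Pi.single i 1)
    have e2 : (fun j => (((Pi.single i 1 : Fin r → ℤ) j : ℤ) : ℝ)) = Pi.single i 1 := by
      funext j
      by_cases hij : j = i
      · subst hij
        simp
      · simp [Pi.single_eq_of_ne hij]
    rw [e2, hXs, hx, h.add]
  exact hk

/-- approximation by elements of the group -/
theorem approx_group (h : Sys C L T v₀) {X : (Fin r → ℝ) →ₗ[ℝ] 𝔸}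
    (hX : ∀ k : Fin r → ℤ, exp (X fun i => (k i : ℝ)) = T (k + k)) (t : Fin r → ℝ) {δ : ℝ}
    (hδ : 0 < δ) (M : ℕ) : ∃ q : ℕ, M ≤ q ∧ 1 ≤ q ∧ ∃ (k : Fin r → ℤ) (e e' : 𝔸),
      ‖e - 1‖ < δ ∧ ‖e' - 1‖ < δ ∧ (∀ i, |(q : ℝ) * t i - k i| < δ) ∧
      T (k + k) = exp ((q : ℝ) • X t) * e ∧ T (-k + -k) = exp (-((q : ℝ) • X t)) * e' := by
  haveI : CompleteSpace 𝔸 := FiniteDimensional.complete ℝ 𝔸
  letI : NormedAlgebra ℚ 𝔸 := NormedAlgebra.restrictScalars ℚ ℝ 𝔸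
  have hXc : Continuous X := LinearMap.continuous_of_finiteDimensional X
  have h1 : Tendsto (fun w : Fin r → ℝ => ‖exp (X w) - 1‖) (𝓝 0) (𝓝 0) := by
    have h2 : Continuous fun w : Fin r → ℝ => ‖exp (X w) - 1‖ :=
      ((exp_continuous.comp hXc).sub continuous_const).norm
    have h3 := h2.tendsto 0
    simpa using h3
  obtain ⟨ε, hε, h4⟩ := Metric.eventually_nhds_iff.1 (h1.eventually (gt_mem_nhds hδ))
  obtain ⟨q, hq, hq1, k, hk⟩ := approx t (lt_min hε hδ) M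
  set w : Fin r → ℝ := fun i => (k i : ℝ) - (q : ℝ) * t i with hw
  have hwn : ‖w‖ < ε := by
    rw [pi_norm_lt_iff hε]
    intro i
    rw [hw, Real.norm_eq_abs, abs_sub_comm]
    exact (hk i).trans_le (min_le_left _ _)
  have e1 : (fun i => (k i : ℝ)) = (q : ℝ) • t + w := by
    funext i
    rw [hw, Pi.add_apply, Pi.smul_apply, smul_eq_mul]
    ring
  have e2 : (fun i => (((-k) i : ℤ) : ℝ)) = -((q : ℝ) • t) + -w := by
    funext i
    rw [hw, Pi.add_apply, Pi.neg_apply, Pi.neg_apply, Pi.neg_apply, Pi.smul_apply, smul_eq_mul]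
    push_cast
    ring
  refine ⟨q, hq, hq1, k, exp (X w), exp (X (-w)), h4 (by rwa [dist_zero_right]),
    h4 (by rwa [dist_zero_right, norm_neg]), fun i => (hk i).trans_le (min_le_right _ _), ?_, ?_⟩
  · rw [← hX, e1, map_add, map_smul, exp_add']
  · rw [← hX, e2, map_add, map_neg X ((q : ℝ) • t), map_smul, exp_add']

/-- the vectors in the orbit of `v₀` -/
theorem orbit (h : Sys C L T v₀) (v : Fin r → ℤ) : 1 ≤ ‖L (T v) v₀‖ := by
  refine one_le_norm_of_int (h.int v _ h.v0int) fun h0 => h.v0_ne ?_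
  have h1 : L (T (-v)) (L (T v) v₀) = v₀ := by
    rw [← Module.End.mul_apply, ← map_mul, mul_comm, h.mul_neg, map_one]
    rfl
  rw [← h1, h0, map_zero]

/-- no decay -/
theorem no_decay (h : Sys C L T v₀) {X : (Fin r → ℝ) →ₗ[ℝ] 𝔸}
    (hX : ∀ k : Fin r → ℤ, exp (X fun i => (k i : ℝ)) = T (k + k)) (t : Fin r → ℝ)
    (hd : Tendsto (fun q : ℕ => ‖L (exp ((q : ℝ) • X t)) v₀‖) atTop (𝓝 0)) : False := by
  obtain ⟨K, hK, hL⟩ := bound (𝔸 := 𝔸) L
  have h0 : (0 : ℝ) < 1 / (K * (‖(1 : 𝔸)‖ + 1)) := by positivity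
  obtain ⟨M, hM⟩ := eventually_atTop.1 (hd.eventually (gt_mem_nhds h0))
  obtain ⟨q, hq, -, k, e, -, he, -, -, hk, -⟩ := h.approx_group hX t one_pos M
  have h1 := h.orbit (k + k)
  rw [hk, mul_comm, map_mul, Module.End.mul_apply] at h1
  have h2 := hL e (L (exp ((q : ℝ) • X t)) v₀)
  have h3 : ‖e‖ ≤ ‖(1 : 𝔸)‖ + 1 := by
    have e1 : e = 1 + (e - 1) := by abel
    rw [e1]
    exact (norm_add_le _ _).trans (by linarith)
  have h4 := hM q hq
  have h5 : K * ‖e‖ * ‖L (exp ((q : ℝ) • X t)) v₀‖ < 1 := by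
    calc K * ‖e‖ * ‖L (exp ((q : ℝ) • X t)) v₀‖
        ≤ K * (‖(1 : 𝔸)‖ + 1) * ‖L (exp ((q : ℝ) • X t)) v₀‖ := by gcongr
      _ < K * (‖(1 : 𝔸)‖ + 1) * (1 / (K * (‖(1 : 𝔸)‖ + 1))) := by gcongr
      _ = 1 := by field_simp
  linarith

/-- eigenvectors -/
theorem indep_neg (h : Sys C L T v₀) {X : (Fin r → ℝ) →ₗ[ℝ] 𝔸}
    (hX : ∀ k : Fin r → ℤ, exp (X fun i => (k i : ℝ)) = T (k + k)) {t : Fin r → ℝ} {c : ℝ}
    (hc : c < 0) (ht : L (X t) v₀ = c • v₀) : False := by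
  refine h.no_decay hX t ?_
  have h1 : ∀ q : ℕ, L (exp ((q : ℝ) • X t)) v₀ = Real.exp (q * c) • v₀ := by
    intro q
    refine eigen L ?_
    rw [map_smul, LinearMap.smul_apply, ht, smul_smul]
  have h2 : Tendsto (fun q : ℕ => Real.exp (q * c)) atTop (𝓝 0) := by
    refine Real.tendsto_exp_atBot.comp ?_
    exact (tendsto_natCast_atTop_atTop (R := ℝ)).atTop_mul_const_of_neg hc
  have h3 : Tendsto (fun q : ℕ => Real.exp (q * c) * ‖v₀‖) atTop (𝓝 (0 * ‖v₀‖)) :=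
    h2.mul_const _
  rw [zero_mul] at h3
  refine h3.congr fun q => ?_
  rw [h1, norm_smul, Real.norm_eq_abs, abs_of_pos (Real.exp_pos _)]

theorem indep (h : Sys C L T v₀) {X : (Fin r → ℝ) →ₗ[ℝ] 𝔸}
    (hX : ∀ k : Fin r → ℤ, exp (X fun i => (k i : ℝ)) = T (k + k)) {t : Fin r → ℝ} {c : ℝ}
    (ht : L (X t) v₀ = c • v₀) : t = 0 ∧ c = 0 := by
  have hc : c = 0 := by
    rcases lt_trichotomy c 0 with h1 | h1 | h1
    · exact (h.indep_neg hX h1 ht).elim
    · exact h1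
    · refine (h.indep_neg hX (t := -t) (c := -c) (by linarith) ?_).elim
      rw [map_neg, map_neg, LinearMap.neg_apply, ht, neg_smul]
  refine ⟨?_, hc⟩
  subst hc
  rw [zero_smul] at ht
  obtain ⟨K, hK, hL⟩ := bound (𝔸 := 𝔸) L
  have hv := norm_pos_iff.2 h.v0_ne
  set δ : ℝ := min 1 (1 / (K * ‖v₀‖)) with hδ
  have hδ0 : 0 < δ := lt_min one_pos (by positivity)
  have key : ∀ M : ℕ, ∃ q : ℕ, M ≤ q ∧ 1 ≤ q ∧ ∀ i, |(q : ℝ) * t i| < 1 := by
    intro M
    obtain ⟨q, hq, hq1, k, e, -, he, -, hk, hT, -⟩ := h.approx_group hX t hδ0 M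
    have h1 : L (exp ((q : ℝ) • X t)) v₀ = v₀ := by
      have h2 := eigen L (y := (q : ℝ) • X t) (c := 0) (w := v₀) (by
        rw [map_smul, LinearMap.smul_apply, ht, smul_zero, zero_smul])
      rwa [Real.exp_zero, one_smul] at h2
    have h2 : L (T (k + k)) v₀ = L e v₀ := by
      rw [hT, mul_comm, map_mul, Module.End.mul_apply, h1]
    have h3 : L (T (k + k)) v₀ - v₀ = L (e - 1) v₀ := by
      rw [h2, map_sub, map_one, LinearMap.sub_apply]
      rfl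
    have h4 : ‖L (T (k + k)) v₀ - v₀‖ < 1 := by
      rw [h3]
      refine (hL _ _).trans_lt ?_
      calc K * ‖e - 1‖ * ‖v₀‖ < K * (1 / (K * ‖v₀‖)) * ‖v₀‖ := by
            have := he.trans_le (min_le_right _ _)
            gcongr
        _ = 1 := by field_simp
    have h5 : L (T (k + k)) v₀ = v₀ := by
      by_contra hne
      have h6 : L (T (k + k)) v₀ - v₀ ≠ 0 := sub_ne_zero.2 hne
      have h7 := one_le_norm_of_int (w := L (T (k + k)) v₀ - v₀) (fun i => by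
        obtain ⟨m, hm⟩ := h.int (k + k) _ h.v0int i
        obtain ⟨m', hm'⟩ := h.v0int i
        exact ⟨m - m', by rw [Pi.sub_apply, hm, hm']; push_cast; ring⟩) h6
      linarith
    have h6 := h.stab h5
    have h7 : k = 0 := by
      refine smul_eq_zero' (n := 2) (by norm_num) ?_
      rw [two_smul, h6]
    refine ⟨q, hq, hq1, fun i => ?_⟩
    have h8 := (hk i).trans_le (min_le_left _ _)
    rw [h7] at h8
    simpa using h8
  funext i
  by_contra hi
  rw [Pi.zero_apply] at hi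
  have hi' : 0 < |t i| := abs_pos.2 hi
  obtain ⟨M, hM⟩ := exists_nat_gt (1 / |t i|)
  obtain ⟨q, hq, hq1, hqi⟩ := key M
  have h1 := hqi i
  rw [abs_mul, Nat.abs_cast] at h1
  rw [div_lt_iff₀ hi'] at hM
  have h2 : (M : ℝ) ≤ q := by exact_mod_cast hq
  nlinarith

theorem surj (h : Sys C L T v₀) {X : (Fin r → ℝ) →ₗ[ℝ] 𝔸}
    (hX : ∀ k : Fin r → ℤ, exp (X fun i => (k i : ℝ)) = T (k + k)) (y : Fin (r + 1) → ℝ) :
    ∃ (t : Fin r → ℝ) (c : ℝ), y = L (X t - c • 1) v₀ := by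
  let Ψ : ((Fin r → ℝ) × ℝ) →ₗ[ℝ] (Fin (r + 1) → ℝ) :=
    (LinearMap.applyₗ v₀) ∘ₗ L.toLinearMap ∘ₗ
      (X ∘ₗ LinearMap.fst ℝ _ _ - (LinearMap.toSpanSingleton ℝ 𝔸 1) ∘ₗ LinearMap.snd ℝ _ _)
  have hΨ : ∀ p, Ψ p = L (X p.1 - p.2 • 1) v₀ := fun p => rfl
  have hinj : Function.Injective Ψ := by
    rw [← LinearMap.ker_eq_bot, LinearMap.ker_eq_bot']
    intro p hp
    rw [hΨ, map_sub, LinearMap.sub_apply, sub_eq_zero, map_smul, map_one] at hp
    have h1 := h.indep hX (t := p.1) (c := p.2) (by rw [hp]; rfl)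
    exact Prod.ext h1.1 h1.2
  have hsurj : Function.Surjective Ψ := by
    refine (LinearMap.injective_iff_surjective_of_finrank_eq_finrank ?_).1 hinj
    rw [Module.finrank_prod, Module.finrank_fin_fun, Module.finrank_self, Module.finrank_fin_fun]
  obtain ⟨p, hp⟩ := hsurj y
  exact ⟨p.1, p.2, by rw [← hp, hΨ]⟩

theorem eq_zero (h : Sys C L T v₀) {X : (Fin r → ℝ) →ₗ[ℝ] 𝔸}
    (hX : ∀ k : Fin r → ℤ, exp (X fun i => (k i : ℝ)) = T (k + k)) {s : 𝔸} (hs : L s v₀ = 0) :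
    s = 0 := by
  apply h.inj
  rw [map_zero]
  refine LinearMap.ext fun y => ?_
  obtain ⟨t, c, rfl⟩ := h.surj hX y
  rw [← Module.End.mul_apply, ← map_mul, mul_comm, map_mul, Module.End.mul_apply, hs, map_zero]
  rfl

theorem sq_neg (h : Sys C L T v₀) {X : (Fin r → ℝ) →ₗ[ℝ] 𝔸}
    (hX : ∀ k : Fin r → ℤ, exp (X fun i => (k i : ℝ)) = T (k + k)) {t : Fin r → ℝ} {c : ℝ} {s : 𝔸}
    (hs : s * s = 0) (hc : c < 0) (ht : X t = c • 1 + s) : False := by
  haveI : CompleteSpace 𝔸 := FiniteDimensional.complete ℝ 𝔸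
  refine h.no_decay hX t ?_
  have h1 : ∀ q : ℕ, L (exp ((q : ℝ) • X t)) v₀ = Real.exp (q * c) • (v₀ + (q : ℝ) • L s v₀) := by
    intro q
    have e1 : (q : ℝ) • X t = ((q : ℝ) * c) • (1 : 𝔸) + (q : ℝ) • s := by
      rw [ht, smul_add, smul_smul]
    have e2 : ((q : ℝ) • s) * ((q : ℝ) • s) = 0 := by
      rw [smul_mul_smul_comm, hs, smul_zero]
    rw [e1, exp_add', exp_sq_zero e2, mul_comm, map_mul, Module.End.mul_apply,
      eigen L (y := ((q : ℝ) * c) • (1 : 𝔸)) (c := q * c) (w := v₀) (by rw [map_smul, map_one]; rfl),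
      map_smul, map_add, map_one, map_smul]
    rfl
  have h2 : Tendsto (fun q : ℕ => Real.exp (q * c)) atTop (𝓝 0) := by
    refine Real.tendsto_exp_atBot.comp ?_
    exact (tendsto_natCast_atTop_atTop (R := ℝ)).atTop_mul_const_of_neg hc
  have h3 : Tendsto (fun q : ℕ => (q : ℝ) * Real.exp (q * c)) atTop (𝓝 0) := by
    have h4 := (Real.tendsto_pow_mul_exp_neg_atTop_nhds_zero 1).comp
      ((tendsto_natCast_atTop_atTop (R := ℝ)).const_mul_atTop (neg_pos.2 hc))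
    have h5 := h4.const_mul (-c)⁻¹
    rw [mul_zero] at h5
    refine h5.congr fun q => ?_
    have e1 : -(-c * (q : ℝ)) = q * c := by ring
    rw [Function.comp_apply, pow_one, e1, ← mul_assoc, ← mul_assoc,
      inv_mul_cancel₀ (by linarith : -c ≠ 0), one_mul]
  have h4 : Tendsto (fun q : ℕ => Real.exp (q * c) * ‖v₀‖ + (q : ℝ) * Real.exp (q * c) * ‖L s v₀‖)
      atTop (𝓝 (0 * ‖v₀‖ + 0 * ‖L s v₀‖)) := (h2.mul_const _).add (h3.mul_const _)
  rw [zero_mul, zero_mul, add_zero] at h4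
  refine squeeze_zero (fun q => norm_nonneg _) (fun q => ?_) h4
  rw [h1, norm_smul, Real.norm_eq_abs, abs_of_pos (Real.exp_pos _), mul_assoc,
    mul_left_comm, ← mul_add]
  refine mul_le_mul_of_nonneg_left ((norm_add_le _ _).trans ?_) (Real.exp_pos _).le
  rw [norm_smul, Real.norm_eq_abs, Nat.abs_cast]

theorem mem_of_sq (h : Sys C L T v₀) {X : (Fin r → ℝ) →ₗ[ℝ] 𝔸}
    (hX : ∀ k : Fin r → ℤ, exp (X fun i => (k i : ℝ)) = T (k + k)) {t : Fin r → ℝ} {s : 𝔸}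
    (hs : s * s = 0) (ht : X t = s) : L s v₀ ∈ C := by
  haveI : CompleteSpace 𝔸 := FiniteDimensional.complete ℝ 𝔸
  obtain ⟨K, hK, hL⟩ := bound (𝔸 := 𝔸) L
  have hex : ∀ n : ℕ, ∃ (q : ℕ) (e : 𝔸), n ≤ q ∧ 1 ≤ q ∧ ‖e - 1‖ < 1 / ((n : ℝ) + 1) ∧
      L e ((q : ℝ)⁻¹ • v₀ + L s v₀) ∈ C := by
    intro n
    obtain ⟨q, hq, hq1, k, e, -, he, -, -, hT, -⟩ := h.approx_group hX t
      (δ := 1 / ((n : ℝ) + 1)) (by positivity) n
    refine ⟨q, e, hq, hq1, he, ?_⟩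
    have hq0 : (q : ℝ) ≠ 0 := by
      have : q ≠ 0 := by omega
      exact_mod_cast this
    have e2 : ((q : ℝ) • s) * ((q : ℝ) • s) = 0 := by
      rw [smul_mul_smul_comm, hs, smul_zero]
    have h1 : L (T (k + k)) v₀ = L e (v₀ + (q : ℝ) • L s v₀) := by
      rw [hT, ht, exp_sq_zero e2, mul_comm, map_mul, Module.End.mul_apply, map_add, map_one, map_smul]
      rfl
    have h2 : L e ((q : ℝ)⁻¹ • v₀ + L s v₀) = (q : ℝ)⁻¹ • L (T (k + k)) v₀ := by
      rw [h1, ← map_smul, smul_add, smul_smul, inv_mul_cancel₀ hq0, one_smul]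
    rw [h2]
    exact h.pc.smul _ (by positivity) _ (h.pres _ _ (interior_subset h.v0))
  choose q e hq hq1 he hC using hex
  refine h.pc.closed.mem_of_tendsto (f := fun n => L (e n) ((q n : ℝ)⁻¹ • v₀ + L s v₀))
    (b := atTop) ?_ (Eventually.of_forall hC)
  have h1 : Tendsto (fun n => (q n : ℝ)⁻¹) atTop (𝓝 0) :=
    tendsto_inv_atTop_zero.comp (tendsto_natCast_atTop_atTop.comp (tendsto_atTop_mono hq tendsto_id))
  have h2 : Tendsto (fun n => (q n : ℝ)⁻¹ • v₀ + L s v₀) atTop (𝓝 ((0 : ℝ) • v₀ + L s v₀)) :=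
    (h1.smul_const _).add_const _
  rw [zero_smul, zero_add] at h2
  have h3 : Tendsto (fun n => L (e n - 1) ((q n : ℝ)⁻¹ • v₀ + L s v₀)) atTop (𝓝 0) := by
    have h4 : Tendsto (fun n : ℕ => K * (1 / ((n : ℝ) + 1)) * ‖(q n : ℝ)⁻¹ • v₀ + L s v₀‖) atTop
        (𝓝 (K * 0 * ‖L s v₀‖)) :=
      (tendsto_one_div_add_atTop_nhds_zero_nat.const_mul K).mul h2.norm
    rw [mul_zero, zero_mul] at h4
    refine squeeze_zero_norm (fun n => (hL _ _).trans ?_) h4
    have := (he n).le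
    gcongr
  have h4 := h3.add h2
  rw [zero_add] at h4
  refine h4.congr fun n => ?_
  rw [map_sub, map_one, LinearMap.sub_apply]
  exact sub_add_cancel _ _

/-- **The algebra is reduced.** -/
theorem sq_zero (h : Sys C L T v₀) {s : 𝔸} (hs : s * s = 0) : s = 0 := by
  haveI : CompleteSpace 𝔸 := FiniteDimensional.complete ℝ 𝔸
  obtain ⟨X, hX⟩ := h.exists_logs
  obtain ⟨t, c, htc⟩ := h.surj hX (L s v₀)
  have ht : X t = c • 1 + s := by
    have h1 : L (s - (X t - c • 1)) v₀ = 0 := by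
      rw [map_sub, LinearMap.sub_apply, ← htc, sub_self]
    have h2 := h.eq_zero hX h1
    have h3 : s = X t - c • 1 := sub_eq_zero.1 h2
    rw [h3]
    abel
  have hc : c = 0 := by
    rcases lt_trichotomy c 0 with h1 | h1 | h1
    · exact (h.sq_neg hX hs h1 ht).elim
    · exact h1
    · refine (h.sq_neg hX (t := -t) (c := -c) (s := -s) (by rw [neg_mul_neg, hs]) (by linarith)
        ?_).elim
      rw [map_neg, ht, neg_add, neg_smul]
  rw [hc, zero_smul, zero_add] at ht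
  have h1 := h.mem_of_sq hX hs ht
  have h2 := h.mem_of_sq hX (t := -t) (s := -s) (by rw [neg_mul_neg, hs]) (by rw [map_neg, ht])
  rw [map_neg, LinearMap.neg_apply] at h2
  exact h.eq_zero hX (h.pc.pointed _ h1 h2)

/-- a nilpotent element is zero -/
theorem nilpotent_zero (h : Sys C L T v₀) {s : 𝔸} {n : ℕ} (hs : s ^ n = 0) : s = 0 := by
  have h1 : IsReduced 𝔸 := (isReduced_iff_pow_one_lt 2 (by norm_num)).2 fun x hx =>
    h.sq_zero (by rw [← pow_two, hx])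
  exact IsReduced.eq_zero _ ⟨n, hs⟩

end Sys

end Pool.Agent.H73.MR
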