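import Mathlib

/-!
Squares of invertible elements of a commutative algebra of finite dimension over the real numbers are
exponentials.
-/

set_option autoImplicit false

namespace Pool.Agent.H73.MR

open Polynomial Filter Topology NormedSpace

/-- the bad parameters for the path from `1` to `M ^ 2` -/
theorem finite_bad {d : ℕ} (M : Matrix (Fin d) (Fin d) ℝ) :
    ({z : ℂ | ((Complex.normSq (1 - z)) • (1 : Matrix (Fin d) (Fin d) ℝ) +
      (2 * ((1 - z) * (starRingEnd ℂ) z).re) • M + (Complex.normSq z) • (M * M)).det = 0}).Finite := by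
  classical
  set A : Matrix (Fin d) (Fin d) ℂ := M.map (algebraMap ℝ ℂ) with hA
  set P : ℂ[X] := ((1 - X : ℂ[X]) • (1 : Matrix (Fin d) (Fin d) ℂ[X]) +
    (X : ℂ[X]) • A.map (C : ℂ →+* ℂ[X])).det with hP
  have heval : ∀ z : ℂ, P.eval z = ((1 - z) • (1 : Matrix (Fin d) (Fin d) ℂ) + z • A).det := by
    intro z
    rw [hP]
    show (evalRingHom z) _ = _
    rw [RingHom.map_det]
    congr 1
    ext i j
    simp [Matrix.one_apply, Matrix.smul_apply]
    split_ifs <;> simp [mul_comm]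
  have hP0 : P ≠ 0 := by
    intro h
    have h1 := heval 0
    rw [h] at h1
    simp at h1
  have hfin : {z : ℂ | P.eval z = 0}.Finite := by
    refine (P.roots.toFinset.finite_toSet).subset fun z hz => ?_
    rw [Finset.mem_coe, Multiset.mem_toFinset, mem_roots hP0]
    exact hz
  have hfin2 : {z : ℂ | P.eval ((starRingEnd ℂ) z) = 0}.Finite := by
    have h1 : {z : ℂ | P.eval ((starRingEnd ℂ) z) = 0} = (starRingEnd ℂ) ⁻¹' {z | P.eval z = 0} := rfl
    rw [h1]
    exact hfin.preimage ((starRingEnd ℂ).injective.injOn)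
  refine (hfin.union hfin2).subset fun z hz => ?_
  rw [Set.mem_setOf_eq] at hz
  have h1 : (((Complex.normSq (1 - z)) • (1 : Matrix (Fin d) (Fin d) ℝ) +
      (2 * ((1 - z) * (starRingEnd ℂ) z).re) • M + (Complex.normSq z) • (M * M)).map
        (algebraMap ℝ ℂ)) =
      ((1 - z) • (1 : Matrix (Fin d) (Fin d) ℂ) + z • A) *
      ((1 - (starRingEnd ℂ) z) • (1 : Matrix (Fin d) (Fin d) ℂ) + (starRingEnd ℂ) z • A) := by
    have e1 : ((Complex.normSq (1 - z) : ℝ) : ℂ) = (1 - z) * (1 - (starRingEnd ℂ) z) := by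
      rw [Complex.normSq_eq_conj_mul_self, map_sub, map_one, mul_comm]
    have e2 : ((Complex.normSq z : ℝ) : ℂ) = z * (starRingEnd ℂ) z := by
      rw [Complex.normSq_eq_conj_mul_self, mul_comm]
    have e3 : ((2 * ((1 - z) * (starRingEnd ℂ) z).re : ℝ) : ℂ) =
        (1 - z) * (starRingEnd ℂ) z + (1 - (starRingEnd ℂ) z) * z := by
      have h := Complex.add_conj ((1 - z) * (starRingEnd ℂ) z)
      rw [← h, map_mul, map_sub, map_one, Complex.conj_conj]
    have e4 : (M * M).map (algebraMap ℝ ℂ) = A * A := Matrix.map_mul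
    have e5 : ((Complex.normSq (1 - z)) • (1 : Matrix (Fin d) (Fin d) ℝ) +
      (2 * ((1 - z) * (starRingEnd ℂ) z).re) • M + (Complex.normSq z) • (M * M)).map
        (algebraMap ℝ ℂ) = ((Complex.normSq (1 - z) : ℝ) : ℂ) • (1 : Matrix (Fin d) (Fin d) ℂ) +
        ((2 * ((1 - z) * (starRingEnd ℂ) z).re : ℝ) : ℂ) • A +
        ((Complex.normSq z : ℝ) : ℂ) • (A * A) := by
      rw [← e4]
      ext i j
      simp only [Matrix.map_apply, Matrix.add_apply, Matrix.smul_apply, smul_eq_mul, map_add,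
        map_mul, Complex.coe_algebraMap, hA, Matrix.one_apply]
      split_ifs <;> simp
    rw [e5, e1, e2, e3, add_mul, mul_add, mul_add, smul_mul_smul_comm, smul_mul_smul_comm,
      smul_mul_smul_comm, smul_mul_smul_comm, one_mul, mul_one, one_mul, add_smul,
      mul_comm (1 - (starRingEnd ℂ) z) z]
    abel
  have h2 : ((((1 - z) • (1 : Matrix (Fin d) (Fin d) ℂ) + z • A) *
      ((1 - (starRingEnd ℂ) z) • (1 : Matrix (Fin d) (Fin d) ℂ) + (starRingEnd ℂ) z • A)).det) = 0 := by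
    rw [← h1]
    have h3 := RingHom.map_det (algebraMap ℝ ℂ) ((Complex.normSq (1 - z)) •
      (1 : Matrix (Fin d) (Fin d) ℝ) + (2 * ((1 - z) * (starRingEnd ℂ) z).re) • M +
      (Complex.normSq z) • (M * M))
    rw [hz, map_zero] at h3
    exact h3.symm
  rw [Matrix.det_mul, ← heval, ← heval, mul_eq_zero] at h2
  exact h2

section

variable {𝔸 : Type*} [NormedCommRing 𝔸] [NormedAlgebra ℝ 𝔸]

theorem exp_add' [CompleteSpace 𝔸] (x y : 𝔸) : exp (x + y) = exp x * exp y := by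
  letI : NormedAlgebra ℚ 𝔸 := NormedAlgebra.restrictScalars ℚ ℝ 𝔸
  exact exp_add_of_commute (mul_comm x y)

theorem exp_mul_neg [CompleteSpace 𝔸] (x : 𝔸) : exp x * exp (-x) = 1 := by
  rw [← exp_add', add_neg_cancel, exp_zero]

/-- the elements near `1` are exponentials -/
theorem near_one [CompleteSpace 𝔸] : ∃ ε : ℝ, 0 < ε ∧ ∀ y : 𝔸, ‖y - 1‖ < ε → ∃ x : 𝔸, exp x = y := by
  have h1 : HasStrictFDerivAt (exp : 𝔸 → 𝔸) ((ContinuousLinearEquiv.refl ℝ 𝔸 : 𝔸 ≃L[ℝ] 𝔸) :
    𝔸 →L[ℝ] 𝔸) 0 := hasStrictFDerivAt_exp_zero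
  have h2 := h1.map_nhds_eq_of_equiv
  rw [exp_zero] at h2
  have h3 : Set.range (exp : 𝔸 → 𝔸) ∈ 𝓝 (1 : 𝔸) := by
    rw [← h2]
    exact Filter.image_mem_map (Filter.univ_mem) |> fun h => by
      rwa [Set.image_univ] at h
  obtain ⟨ε, hε, h4⟩ := Metric.mem_nhds_iff.1 h3
  refine ⟨ε, hε, fun y hy => ?_⟩
  exact h4 (by rwa [Metric.mem_ball, dist_eq_norm])

/-- a continuous family of units over a connected space -/
theorem exp_of_connected [CompleteSpace 𝔸] {S : Type*} [TopologicalSpace S] [PreconnectedSpace S]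
    (γ : S → 𝔸) (hγ : Continuous γ) (hu : ∀ s, IsUnit (γ s)) {s₀ : S} (h0 : ∃ x, exp x = γ s₀) (s : S) :
    ∃ x : 𝔸, exp x = γ s := by
  obtain ⟨ε, hε, hnear⟩ := near_one (𝔸 := 𝔸)
  have hcl : IsClopen {s : S | ∃ x : 𝔸, exp x = γ s} := by
    -- a basic step
    have key : ∀ s₁ s₂ : S, ∀ v : 𝔸, γ s₂ * v = 1 → ‖γ s₁ - γ s₂‖ * ‖v‖ < ε →
        ((∃ x : 𝔸, exp x = γ s₁) ↔ ∃ x : 𝔸, exp x = γ s₂) := by
      intro s₁ s₂ v hv hn
      have h1 : ‖γ s₁ * v - 1‖ < ε := by
        rw [← hv, ← sub_mul]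
        exact (norm_mul_le _ _).trans_lt hn
      obtain ⟨w, hw⟩ := hnear _ h1
      have h2 : exp w * γ s₂ = γ s₁ := by
        rw [hw, mul_assoc, mul_comm v, hv, mul_one]
      constructor
      · rintro ⟨x, hx⟩
        refine ⟨x - w, ?_⟩
        rw [sub_eq_add_neg, exp_add', hx, ← h2, mul_comm (exp w), mul_assoc, exp_mul_neg, mul_one]
      · rintro ⟨x, hx⟩
        refine ⟨w + x, ?_⟩
        rw [exp_add', hx, h2]
    have hloc : ∀ s₂ : S, ∀ᶠ s₁ in 𝓝 s₂, ((∃ x : 𝔸, exp x = γ s₁) ↔ ∃ x : 𝔸, exp x = γ s₂) := by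
      intro s₂
      obtain ⟨v, hv⟩ := (hu s₂).exists_right_inv
      have h1 : Tendsto (fun s₁ => ‖γ s₁ - γ s₂‖ * ‖v‖) (𝓝 s₂) (𝓝 0) := by
        have h2 : Continuous (fun s₁ => ‖γ s₁ - γ s₂‖ * ‖v‖) := by fun_prop
        have h3 := h2.tendsto s₂
        simpa using h3
      exact (h1.eventually (gt_mem_nhds hε)).mono fun s₁ h => key s₁ s₂ v hv h
    constructor
    · rw [← isOpen_compl_iff, isOpen_iff_mem_nhds]
      intro s₂ hs₂
      filter_upwards [hloc s₂] with s₁ h1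
      intro h2
      exact hs₂ (h1.1 h2)
    · rw [isOpen_iff_mem_nhds]
      intro s₂ hs₂
      filter_upwards [hloc s₂] with s₁ h1
      exact h1.2 hs₂
  have h1 := hcl.eq_univ ⟨s₀, h0⟩
  have h2 : s ∈ {s : S | ∃ x : 𝔸, exp x = γ s} := by rw [h1]; trivial
  exact h2

/-- **Logarithms.** -/
theorem exists_log [FiniteDimensional ℝ 𝔸] {u : 𝔸} (hu : IsUnit u) : ∃ x : 𝔸, exp x = u * u := by
  classical
  haveI : CompleteSpace 𝔸 := FiniteDimensional.complete ℝ 𝔸
  obtain ⟨b⟩ : Nonempty (Module.Basis (Fin (Module.finrank ℝ 𝔸)) ℝ 𝔸) :=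
    ⟨Module.finBasis ℝ 𝔸⟩
  set Λ := Algebra.leftMulMatrix b with hΛ
  set γ : ℂ → 𝔸 := fun z => (Complex.normSq (1 - z)) • (1 : 𝔸) +
      (2 * ((1 - z) * (starRingEnd ℂ) z).re) • u + (Complex.normSq z) • (u * u) with hγ
  have hΛγ : ∀ z, Λ (γ z) = (Complex.normSq (1 - z)) • (1 : Matrix _ _ ℝ) +
      (2 * ((1 - z) * (starRingEnd ℂ) z).re) • (Λ u) + (Complex.normSq z) • (Λ u * Λ u) := by
    intro z
    rw [hγ]
    simp only [map_add, map_smul, map_mul, map_one]
  have hunit : ∀ x : 𝔸, (Λ x).det ≠ 0 → IsUnit x := by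
    intro x hx
    have h1 : IsUnit (Λ x) := (Matrix.isUnit_iff_isUnit_det _).2 (isUnit_iff_ne_zero.2 hx)
    have h2 : Function.Injective (LinearMap.mulLeft ℝ x) := by
      intro y z hyz
      have h3 : Λ x * Λ y = Λ x * Λ z := by
        rw [← map_mul, ← map_mul]
        exact congrArg Λ hyz
      have h4 := h1.mul_left_cancel h3
      exact Algebra.leftMulMatrix_injective b h4
    have h3 : Function.Surjective (LinearMap.mulLeft ℝ x) := LinearMap.injective_iff_surjective.1 h2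
    obtain ⟨y, hy⟩ := h3 1
    exact IsUnit.of_mul_eq_one y hy
  set Z : Set ℂ := {z : ℂ | (Λ (γ z)).det = 0} with hZ
  have hZfin : Z.Finite := by
    have h1 := finite_bad (Λ u)
    refine h1.subset fun z hz => ?_
    rw [hZ, Set.mem_setOf_eq, hΛγ] at hz
    exact hz
  have hconn : IsPreconnected (Zᶜ) := by
    refine (hZfin.countable.isConnected_compl_of_one_lt_rank ?_).isPreconnected
    rw [Complex.rank_real_complex]
    norm_num
  haveI : PreconnectedSpace (Zᶜ : Set ℂ) := isPreconnected_iff_preconnectedSpace.1 hconn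
  have h0 : (0 : ℂ) ∈ Zᶜ := by
    intro h
    rw [hZ, Set.mem_setOf_eq, hΛγ] at h
    simp at h
  have h1 : (1 : ℂ) ∈ Zᶜ := by
    intro h
    rw [hZ, Set.mem_setOf_eq, hΛγ] at h
    simp only [sub_self, map_zero, zero_smul, zero_mul, Complex.zero_re, mul_zero, zero_add,
      map_one, one_smul, Matrix.det_mul, mul_eq_zero, or_self] at h
    have h2 : IsUnit (Λ u) := hu.map Λ
    rw [Matrix.isUnit_iff_isUnit_det, h] at h2
    exact not_isUnit_zero h2
  have hcont : Continuous γ := by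
    rw [hγ]
    refine Continuous.add (Continuous.add ?_ ?_) ?_
    · exact (Complex.continuous_normSq.comp (by fun_prop)).smul continuous_const
    · refine Continuous.smul ?_ continuous_const
      refine continuous_const.mul (Complex.continuous_re.comp ?_)
      exact (continuous_const.sub continuous_id).mul Complex.continuous_conj
    · exact Complex.continuous_normSq.smul continuous_const
  have h2 := exp_of_connected (S := (Zᶜ : Set ℂ)) (fun s => γ s) (hcont.comp continuous_subtype_val)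
    (fun s => hunit _ (fun h => s.2 h)) (s₀ := ⟨0, h0⟩) ⟨0, by simp [hγ]⟩ ⟨1, h1⟩
  obtain ⟨x, hx⟩ := h2
  refine ⟨x, hx.trans ?_⟩
  simp [hγ]

end

end Pool.Agent.H73.MR
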